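import Mathlib

/-! Definitions used in the statements on the Gromov-Hausdorff distance of spheres and tori. -/

namespace MPf10cd3

/-- `X` is a round sphere of radius `ρ`: up to a bijection it is the unit sphere of Euclidean
three space with the metric `ρ` times the angle between two unit vectors. -/
def IsRoundSphere (ρ : ℝ) (X : Type*) [MetricSpace X] : Prop :=
  ∃ e : X ≃ Metric.sphere (0 : EuclideanSpace ℝ (Fin 3)) 1, ∀ x y : X,
    dist x y = ρ * InnerProductGeometry.angle (e x : EuclideanSpace ℝ (Fin 3)) (e y)

/-- `T` is the flat torus which is the quotient of the Euclidean plane by the lattice with basis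
`a, b`: there is a surjection `q` of the plane onto `T` such that the distance of `q u` and `q v`
is the distance of `u - v` to the lattice. -/
def IsFlatTorus (a b : EuclideanSpace ℝ (Fin 2)) (T : Type*) [MetricSpace T] : Prop :=
  LinearIndependent ℝ ![a, b] ∧ ∃ q : EuclideanSpace ℝ (Fin 2) → T, Function.Surjective q ∧
    ∀ u v, dist (q u) (q v) = Metric.infDist (u - v) {w | ∃ m n : ℤ, w = m • a + n • b}

/-- `M` is a geodesic space: any two points are the ends of a geodesic, parametrised
proportionally to arc length on `[0, 1]`. -/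
def IsGeod (M : Type*) [MetricSpace M] : Prop :=
  ∀ x y : M, ∃ γ : ℝ → M, γ 0 = x ∧ γ 1 = y ∧
    ∀ s ∈ Set.Icc (0 : ℝ) 1, ∀ t ∈ Set.Icc (0 : ℝ) 1, dist (γ s) (γ t) = dist x y * |s - t|

end MPf10cd3
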