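import Pool.Agent.Lib.MP_f10cd3_gt.Cocycle
import Pool.Agent.Lib.MP_f10cd3_gt.Defs

/-! Functions on the plane of polar angles, reflections, and a coarse Borsuk-Ulam theorem. -/

namespace MPf10cd3

open Real

/-- `(φ, θ) ↦ (-φ, θ+π)`: the same point of the sphere. -/
noncomputable def tau (u : ℝ × ℝ) : ℝ × ℝ := (-u.1, u.2 + π)

/-- `(φ, θ) ↦ (2π-φ, θ+π)`: the same point of the sphere. -/
noncomputable def tau' (u : ℝ × ℝ) : ℝ × ℝ := (2 * π - u.1, u.2 + π)

/-- `(φ, θ) ↦ (φ+π, θ)`: the antipodal point of the sphere. -/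
noncomputable def sig (u : ℝ × ℝ) : ℝ × ℝ := (u.1 + π, u.2)

/-- Functions of `(φ, θ)` which descend to the sphere. -/
structure Good {α : Type*} (f : ℝ × ℝ → α) : Prop where
  t : ∀ u, f (tau u) = f u
  t' : ∀ u, f (tau' u) = f u
  l0 : ∀ a b, f (0, a) = f (0, b)
  lpi : ∀ a b, f (π, a) = f (π, b)

theorem Good.shift_snd {α : Type*} {f : ℝ × ℝ → α} (h : Good f) (x y : ℝ) :
    f (x, y + 2 * π) = f (x, y) := by
  have h1 := h.t (x, y)
  have h2 := h.t (-x, y + π)
  simp only [tau, neg_neg] at h1 h2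
  rw [← h1, ← h2]
  congr 2
  ring

theorem Good.shift_fst {α : Type*} {f : ℝ × ℝ → α} (h : Good f) (x y : ℝ) :
    f (x + 2 * π, y) = f (x, y) := by
  have h1 := h.t' (-x, y + π)
  have h2 := h.t (x, y)
  simp only [tau', tau] at h1 h2
  have h3 := h.shift_snd (2 * π - -x) y
  rw [show y + π + π = y + 2 * π by ring, h3, h2] at h1
  rw [← h1]
  congr 2
  ring

theorem Good.sig_sig {α : Type*} {f : ℝ × ℝ → α} (h : Good f) (u : ℝ × ℝ) :
    f (sig (sig u)) = f u := by
  have := h.shift_fst u.1 u.2
  simp only [sig]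
  rw [show u.1 + π + π = u.1 + 2 * π by ring, this]

theorem Good.comp_sig {α : Type*} {f : ℝ × ℝ → α} (h : Good f) : Good (fun u => f (sig u)) where
  t u := by
    have h1 := h.t' (sig u)
    simp only [tau', tau, sig] at h1 ⊢
    rw [← h1]
    congr 2
    ring
  t' u := by
    have h1 := h.t' (u.1 - π, u.2)
    have h2 := h.shift_fst (u.1 - π) u.2
    simp only [tau', sig] at h1 h2 ⊢
    rw [show u.1 - π + 2 * π = u.1 + π by ring] at h2
    rw [h2, ← h1]
    congr 2
    ring
  l0 a b := by
    have := h.lpi a b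
    simpa [sig] using this
  lpi a b := by
    have h1 := h.shift_fst 0 a
    have h2 := h.shift_fst 0 b
    have h3 := h.l0 a b
    simp only [sig]
    rw [show π + π = 0 + 2 * π by ring, h1, h2, h3]

theorem Good.map₂ {α β γ : Type*} {f : ℝ × ℝ → α} {g : ℝ × ℝ → β} (hf : Good f) (hg : Good g)
    (F : α → β → γ) : Good (fun u => F (f u) (g u)) where
  t u := by simp only [hf.t, hg.t]
  t' u := by simp only [hf.t', hg.t']
  l0 a b := by simp only [hf.l0 a b, hg.l0 a b]
  lpi a b := by simp only [hf.lpi a b, hg.lpi a b]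

theorem dist_tau (u v : ℝ × ℝ) : dist (tau u) (tau v) = dist u v := by
  have h : |(-u.1) - (-v.1)| = |u.1 - v.1| := by
    rw [show (-u.1) - (-v.1) = -(u.1 - v.1) by ring, abs_neg]
  simp only [tau, Prod.dist_eq, Real.dist_eq, h, add_sub_add_right_eq_sub]

theorem dist_tau' (u v : ℝ × ℝ) : dist (tau' u) (tau' v) = dist u v := by
  have h : |(2 * π - u.1) - (2 * π - v.1)| = |u.1 - v.1| := by
    rw [show (2 * π - u.1) - (2 * π - v.1) = -(u.1 - v.1) by ring, abs_neg]
  simp only [tau', Prod.dist_eq, Real.dist_eq, h, add_sub_add_right_eq_sub]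

theorem dist_sig (u v : ℝ × ℝ) : dist (sig u) (sig v) = dist u v := by
  simp only [sig, Prod.dist_eq, Real.dist_eq, add_sub_add_right_eq_sub]

theorem const_plane {α : Type*} {ε : ℝ} (hε : 0 < ε) {f : ℝ × ℝ → α}
    (hf : ∀ u v, dist u v < ε → f u = f v) (u v : ℝ × ℝ) : f u = f v :=
  const_of_local convex_univ hε (fun u _ v _ h => hf u v h) (Set.mem_univ u) (Set.mem_univ v)

theorem const_line {α : Type*} {ε : ℝ} (hε : 0 < ε) {f : ℝ → α}
    (hf : ∀ u v, dist u v < ε → f u = f v) (u v : ℝ) : f u = f v :=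
  const_of_local convex_univ hε (fun u _ v _ h => hf u v h) (Set.mem_univ u) (Set.mem_univ v)

/-- A coarse cocycle which comes from the sphere has a potential which descends to the sphere. -/
theorem exists_good_potential {Y V : Type*} [AddCommGroup V] {p : ℝ × ℝ → Y} (hp : Good p)
    {D : Y → Y → V} {ε : ℝ} (hε : 0 < ε) (hc : IsCoc (fun u v => D (p u) (p v)) ε) :
    ∃ f : ℝ × ℝ → V, Good f ∧ ∀ u v, dist u v < ε / 2 → f v - f u = D (p u) (p v) := by
  obtain ⟨f, hf⟩ := exists_potential hc hε
  have hε2 : 0 < ε / 2 := by linarith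
  have hself : ∀ u, D (p u) (p u) = 0 := fun u => hc.self hε u
  have l0 : ∀ a b, f (0, a) = f (0, b) := by
    apply const_line hε2
    intro a b hab
    have := hf (0, a) (0, b) (by simpa [Prod.dist_eq] using hab)
    rw [hp.l0 a b, hself] at this
    exact (sub_eq_zero.mp this).symm
  have lpi : ∀ a b, f (π, a) = f (π, b) := by
    apply const_line hε2
    intro a b hab
    have := hf (π, a) (π, b) (by simpa [Prod.dist_eq] using hab)
    rw [hp.lpi a b, hself] at this
    exact (sub_eq_zero.mp this).symm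
  refine ⟨f, ⟨?_, ?_, l0, lpi⟩, hf⟩
  · intro u
    have := const_plane hε2 (f := fun u => f (tau u) - f u) (fun u v huv => by
      have h1 := hf u v huv
      have h2 := hf (tau u) (tau v) (by rwa [dist_tau])
      rw [hp.t, hp.t, ← h1] at h2
      show f (tau u) - f u = f (tau v) - f v
      rw [sub_eq_sub_iff_add_eq_add] at h2 ⊢
      rw [add_comm, ← h2, add_comm]) u (0, 0)
    simp only [tau, neg_zero] at this
    rw [l0 (0 + π) 0, sub_self] at this
    exact sub_eq_zero.mp this
  · intro u
    have := const_plane hε2 (f := fun u => f (tau' u) - f u) (fun u v huv => by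
      have h1 := hf u v huv
      have h2 := hf (tau' u) (tau' v) (by rwa [dist_tau'])
      rw [hp.t', hp.t', ← h1] at h2
      show f (tau' u) - f u = f (tau' v) - f v
      rw [sub_eq_sub_iff_add_eq_add] at h2 ⊢
      rw [add_comm, ← h2, add_comm]) u (π, 0)
    simp only [tau'] at this
    rw [show 2 * π - π = π by ring, lpi (0 + π) 0, sub_self] at this
    exact sub_eq_zero.mp this

/-- One dimensional coarse Borsuk-Ulam. -/
theorem borsuk_ulam_one {ε : ℝ} (hε : 0 < ε) {h : ℝ × ℝ → ℝ} (hh : ∀ u, h (sig (sig u)) = h u) :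
    ∃ u v, dist u v < ε ∧ h (sig u) ≤ h u ∧ h v ≤ h (sig v) := by
  by_contra hcon
  push Not at hcon
  have h0 : ∀ u, h (sig u) ≤ h u → h (sig u) < h u := fun u hu => hcon u u (by simpa) hu
  have key : ∀ u v, dist u v < ε → ((h (sig u) ≤ h u) = (h (sig v) ≤ h v)) := by
    intro u v huv
    apply propext
    constructor
    · intro hu
      exact (hcon u v huv hu).le
    · intro hv
      exact (hcon v u (by rwa [dist_comm]) hv).le
  have hc := const_plane hε key (0, 0) (sig (0, 0))
  rw [hh] at hc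
  rcases le_total (h (sig (0, 0))) (h (0, 0)) with h1 | h1
  · have h2 : h (0, 0) ≤ h (sig (0, 0)) := by rw [← hc]; exact h1
    exact absurd (h0 _ h1) (not_lt.mpr h2)
  · have h2 : h (sig (0, 0)) ≤ h (0, 0) := by rw [hc]; exact h1
    exact absurd (h0 _ h2) (not_lt.mpr h1)

/-- The angle at `b` of the triangle `a, a', b` is less than a right angle. -/
theorem arg_lt {a a' b : ℂ} {r m : ℝ} (hm : 0 < m) (hrm : r ^ 2 < 2 * m ^ 2)
    (h : ‖a' - a‖ < r) (h1 : m ≤ ‖a - b‖) (h2 : m ≤ ‖a' - b‖) :
    |((a' - b) / (a - b)).arg| < π / 2 := by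
  rw [Complex.abs_arg_lt_pi_div_two_iff]
  left
  have hz : a - b ≠ 0 := by
    intro h0; rw [h0, norm_zero] at h1; linarith
  rw [Complex.div_re, ← add_div]
  apply div_pos _ (Complex.normSq_pos.mpr hz)
  have key : 2 * ((a' - b).re * (a - b).re + (a' - b).im * (a - b).im) =
      ‖a - b‖ ^ 2 + ‖a' - b‖ ^ 2 - ‖a' - a‖ ^ 2 := by
    rw [← Complex.normSq_eq_norm_sq, ← Complex.normSq_eq_norm_sq, ← Complex.normSq_eq_norm_sq,
      Complex.normSq_apply, Complex.normSq_apply, Complex.normSq_apply]
    simp only [Complex.sub_re, Complex.sub_im]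
    ring
  have e1 : m ^ 2 ≤ ‖a - b‖ ^ 2 := pow_le_pow_left₀ hm.le h1 2
  have e2 : m ^ 2 ≤ ‖a' - b‖ ^ 2 := pow_le_pow_left₀ hm.le h2 2
  have e3 : ‖a' - a‖ ^ 2 < r ^ 2 := pow_lt_pow_left₀ h (norm_nonneg _) (by norm_num)
  linarith

/-- If four complex numbers multiply to one and have positive real part then their arguments
add up to zero. -/
theorem arg_sum_four {z1 z2 z3 z4 : ℂ} (h0 : z1 * z2 = z3 * z4) (n1 : z1 ≠ 0) (n2 : z2 ≠ 0)
    (n3 : z3 ≠ 0) (n4 : z4 ≠ 0) (h1 : |z1.arg| < π / 2) (h2 : |z2.arg| < π / 2)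
    (h3 : |z3.arg| < π / 2) (h4 : |z4.arg| < π / 2) : z1.arg + z2.arg = z3.arg + z4.arg := by
  rw [abs_lt] at h1 h2 h3 h4
  have e1 : (z1 * z2).arg = z1.arg + z2.arg :=
    Complex.arg_mul n1 n2 ⟨by linarith [h1.1, h2.1], by linarith [h1.2, h2.2]⟩
  have e2 : (z3 * z4).arg = z3.arg + z4.arg :=
    Complex.arg_mul n3 n4 ⟨by linarith [h3.1, h4.1], by linarith [h3.2, h4.2]⟩
  rw [← e1, ← e2, h0]

/-- Two dimensional coarse Borsuk-Ulam, for pairs. -/
theorem borsuk_ulam_pair {ε : ℝ} (hε : 0 < ε) {a : ℝ × ℝ → ℂ} (ha : Good a) {r m : ℝ}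
    (hm : 0 < m) (hrm : r ^ 2 < 2 * m ^ 2)
    (h1 : ∀ u v, dist u v < ε → ‖a v - a u‖ < r)
    (h2 : ∀ u v, dist u v < ε → m ≤ ‖a u - a (sig v)‖) : False := by
  -- distances and angles in terms of the two points
  let b : ℝ × ℝ → ℂ := fun u => a (sig u)
  have hb1 : ∀ u v, dist u v < ε → ‖b v - b u‖ < r := fun u v huv =>
    h1 _ _ (by rwa [dist_sig])
  have hab : ∀ u v, dist u v < ε → a u - b v ≠ 0 := by
    intro u v huv h0
    have := h2 u v huv
    rw [show a u - a (sig v) = a u - b v from rfl, h0, norm_zero] at this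
    linarith
  have hba : ∀ u v, dist u v < ε → b v - a u ≠ 0 := by
    intro u v huv h0
    apply hab u v huv
    rw [← neg_sub, h0, neg_zero]
  have hm' : ∀ u v, dist u v < ε → m ≤ ‖b v - a u‖ := by
    intro u v huv
    rw [norm_sub_rev]; exact h2 u v huv
  -- single moves
  let A : ℂ → ℂ → ℂ → ℝ := fun x y z => ((y - z) / (x - z)).arg
  have hA1 : ∀ u v w, dist u v < ε → dist u w < ε → dist v w < ε →
      |A (a u) (a v) (b w)| < π / 2 := fun u v w huv huw hvw =>
    arg_lt hm hrm (h1 u v huv) (h2 u w huw) (h2 v w hvw)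
  have hA2 : ∀ u v w, dist u v < ε → dist w u < ε → dist w v < ε →
      |A (b u) (b v) (a w)| < π / 2 := fun u v w huv huw hvw =>
    arg_lt hm hrm (hb1 u v huv) (hm' w u huw) (hm' w v hvw)
  have hswap : ∀ u v w x, dist u v < ε → dist w x < ε → dist u w < ε → dist u x < ε →
      dist v w < ε → dist v x < ε →
      A (a u) (a v) (b w) + A (b w) (b x) (a v) = A (b w) (b x) (a u) + A (a u) (a v) (b x) := by
    intro u v w x huv hwx huw hux hvw hvx
    apply arg_sum_four
    · have := hab u w huw; have := hab v w hvw; have := hab u x hux; have := hab v x hvx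
      have := hba u w huw; have := hba v w hvw; have := hba u x hux; have := hba v x hvx
      rw [div_mul_div_comm, div_mul_div_comm, div_eq_div_iff (by positivity) (by positivity)]
      ring
    · exact div_ne_zero (hab v w hvw) (hab u w huw)
    · exact div_ne_zero (hba v x hvx) (hba v w hvw)
    · exact div_ne_zero (hba u x hux) (hba u w huw)
    · exact div_ne_zero (hab v x hvx) (hab u x hux)
    · exact hA1 u v w huv huw hvw
    · exact hA2 w x v hwx hvw hvx
    · exact hA2 w x u hwx huw hux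
    · exact hA1 u v x huv hux hvx
  have hadd1 : ∀ u v w x, dist u v < ε → dist v w < ε → dist u w < ε → dist u x < ε →
      dist v x < ε → dist w x < ε →
      A (a u) (a v) (b x) + A (a v) (a w) (b x) = A (a u) (a w) (b x) := by
    intro u v w x huv hvw huw hux hvx hwx
    have e1 := abs_lt.mp (hA1 u v x huv hux hvx)
    have e2 := abs_lt.mp (hA1 v w x hvw hvx hwx)
    have n1 := hab u x hux; have n2 := hab v x hvx; have n3 := hab w x hwx
    have h3 : (a w - b x) / (a u - b x) = ((a v - b x) / (a u - b x)) * ((a w - b x) / (a v - b x)) := by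
      field_simp
    show ((a v - b x) / (a u - b x)).arg + ((a w - b x) / (a v - b x)).arg =
      ((a w - b x) / (a u - b x)).arg
    rw [h3, Complex.arg_mul (div_ne_zero n2 n1) (div_ne_zero n3 n2)]
    constructor
    · have := e1.1; have := e2.1; simp only [A] at *; linarith
    · have := e1.2; have := e2.2; simp only [A] at *; linarith
  have hadd2 : ∀ u v w x, dist u v < ε → dist v w < ε → dist u w < ε → dist x u < ε →
      dist x v < ε → dist x w < ε →
      A (b u) (b v) (a x) + A (b v) (b w) (a x) = A (b u) (b w) (a x) := by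
    intro u v w x huv hvw huw hux hvx hwx
    have e1 := abs_lt.mp (hA2 u v x huv hux hvx)
    have e2 := abs_lt.mp (hA2 v w x hvw hvx hwx)
    have n1 := hba x u hux; have n2 := hba x v hvx; have n3 := hba x w hwx
    have h3 : (b w - a x) / (b u - a x) = ((b v - a x) / (b u - a x)) * ((b w - a x) / (b v - a x)) := by
      field_simp
    show ((b v - a x) / (b u - a x)).arg + ((b w - a x) / (b v - a x)).arg =
      ((b w - a x) / (b u - a x)).arg
    rw [h3, Complex.arg_mul (div_ne_zero n2 n1) (div_ne_zero n3 n2)]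
    constructor
    · have := e1.1; have := e2.1; simp only [A] at *; linarith
    · have := e1.2; have := e2.2; simp only [A] at *; linarith
  -- the cocycle
  let D : ℂ × ℂ → ℂ × ℂ → ℝ := fun p q => A p.1 q.1 p.2 + A p.2 q.2 q.1
  have hp : Good (fun u => (a u, b u)) := ha.map₂ ha.comp_sig (fun x y => (x, y))
  have hc : IsCoc (fun u v => D (a u, b u) (a v, b v)) ε := by
    intro u v w huv hvw huw
    have huu : dist u u < ε := by simpa
    have hvv : dist v v < ε := by simpa
    have hww : dist w w < ε := by simpa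
    have hvu : dist v u < ε := by rwa [dist_comm]
    have hwv : dist w v < ε := by rwa [dist_comm]
    have hwu : dist w u < ε := by rwa [dist_comm]
    show (A (a u) (a v) (b u) + A (b u) (b v) (a v)) + (A (a v) (a w) (b v) + A (b v) (b w) (a w)) =
      A (a u) (a w) (b u) + A (b u) (b w) (a w)
    have s1 := hswap v w u v hvw huv hvu hvv hwu hwv
    have s2 := hadd1 u v w u huv hvw huw huu hvu hwu
    have s3 := hadd2 u v w w huv hvw huw hwu hwv hww
    linarith
  obtain ⟨T, hT, hTd⟩ := exists_good_potential hp (D := D) hε hc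
  have hε2 : 0 < ε / 2 := by linarith
  have hbs : ∀ u, b (sig u) = a u := fun u => ha.sig_sig u
  have hTsig : ∀ u, T (sig u) = T u := by
    intro u
    have hK := fun u v => const_plane hε2 (f := fun u => T (sig u) - T u) (fun u v huv => by
      have huv' : dist u v < ε := by linarith
      have huu : dist u u < ε := by simpa
      have hvv : dist v v < ε := by simpa
      have hvu : dist v u < ε := by rwa [dist_comm]
      have h1' := hTd u v huv
      have h2' := hTd (sig u) (sig v) (by rwa [dist_sig])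
      have h3' : D (a (sig u), b (sig u)) (a (sig v), b (sig v)) = D (a u, b u) (a v, b v) := by
        show A (b u) (b v) (b (sig u)) + A (b (sig u)) (b (sig v)) (b v) =
          A (a u) (a v) (b u) + A (b u) (b v) (a v)
        rw [hbs, hbs]
        exact (hswap u v u v huv' huv' huu huv' hvu hvv).symm
      rw [h3', ← h1'] at h2'
      show T (sig u) - T u = T (sig v) - T v
      linarith) u v
    have h1 := hK (sig u) u
    simp only [hT.sig_sig] at h1
    linarith
  have hexp : ∀ z : ℂ, z ≠ 0 → Complex.exp (z.arg * Complex.I) = z / ‖z‖ := by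
    intro z hz
    have nz : (‖z‖ : ℂ) ≠ 0 := by simpa using hz
    rw [eq_div_iff nz, mul_comm]
    exact Complex.norm_mul_exp_arg_mul_I z
  have hloc : ∀ u v, dist u v < ε / 2 →
      (fun u => ((a u - b u) / ‖a u - b u‖) * Complex.exp (-(T u : ℂ) * Complex.I)) u =
      (fun u => ((a u - b u) / ‖a u - b u‖) * Complex.exp (-(T u : ℂ) * Complex.I)) v := by
    intro u v huv
    have huv' : dist u v < ε := by linarith
    have hvu : dist v u < ε := by rwa [dist_comm]
    have n1 : a u - b u ≠ 0 := hab u u (by simpa)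
    have n2 : a v - b v ≠ 0 := hab v v (by simpa)
    have n3 : a v - b u ≠ 0 := hab v u hvu
    have n3' : b u - a v ≠ 0 := hba v u hvu
    have n2' : b v - a v ≠ 0 := hba v v (by simpa)
    have h1' := hTd u v huv
    have h3 : (T v : ℂ) = T u + (((a v - b u) / (a u - b u)).arg : ℂ) +
        (((b v - a v) / (b u - a v)).arg : ℂ) := by
      have : T v = T u + ((a v - b u) / (a u - b u)).arg + ((b v - a v) / (b u - a v)).arg := by
        have : T v - T u = ((a v - b u) / (a u - b u)).arg + ((b v - a v) / (b u - a v)).arg := h1'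
        linarith
      rw [this]; push_cast; ring
    have h4 : Complex.exp (-(T v : ℂ) * Complex.I) = Complex.exp (-(T u : ℂ) * Complex.I) *
        (Complex.exp ((((a v - b u) / (a u - b u)).arg : ℂ) * Complex.I))⁻¹ *
        (Complex.exp ((((b v - a v) / (b u - a v)).arg : ℂ) * Complex.I))⁻¹ := by
      rw [h3, ← Complex.exp_neg, ← Complex.exp_neg, ← Complex.exp_add, ← Complex.exp_add]
      congr 1; ring
    show ((a u - b u) / ‖a u - b u‖) * Complex.exp (-(T u : ℂ) * Complex.I) =
      ((a v - b v) / ‖a v - b v‖) * Complex.exp (-(T v : ℂ) * Complex.I)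
    rw [h4, hexp _ (div_ne_zero n3 n1), hexp _ (div_ne_zero n2' n3'), norm_div, norm_div]
    have k1 : (‖a u - b u‖ : ℂ) ≠ 0 := by simpa using n1
    have k2 : (‖a v - b v‖ : ℂ) ≠ 0 := by simpa using n2
    have k3 : (‖a v - b u‖ : ℂ) ≠ 0 := by simpa using n3
    rw [norm_sub_rev (b v) (a v), norm_sub_rev (b u) (a v)]
    have e1 : b v - a v = -(a v - b v) := by ring
    have e2 : b u - a v = -(a v - b u) := by ring
    rw [e1, e2, neg_div_neg_eq]
    push_cast
    field_simp
  have hcst := const_plane hε2 hloc (sig (0, 0)) (0, 0)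
  have hz0 : a (sig (0, 0)) - b (sig (0, 0)) = -(a (0, 0) - b (0, 0)) := by
    rw [hbs]; show b (0, 0) - a (0, 0) = _; ring
  simp only [hTsig, hz0, norm_neg] at hcst
  have n0 : a (0, 0) - b (0, 0) ≠ 0 := hab _ _ (by simpa)
  have nz : ((a (0, 0) - b (0, 0)) / ‖a (0, 0) - b (0, 0)‖) *
      Complex.exp (-(T (0, 0) : ℂ) * Complex.I) ≠ 0 := by
    apply mul_ne_zero _ (Complex.exp_ne_zero _)
    apply div_ne_zero n0
    simpa using n0
  rw [neg_div, neg_mul] at hcst
  apply nz
  have h2' : (2 : ℂ) * (((a (0, 0) - b (0, 0)) / ‖a (0, 0) - b (0, 0)‖) *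
      Complex.exp (-(T (0, 0) : ℂ) * Complex.I)) = 0 := by
    linear_combination -hcst
  rcases mul_eq_zero.mp h2' with h3 | h3
  · norm_num at h3
  · exact h3

end MPf10cd3
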