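import Mathlib

/-! Coarse one-cocycles on a real normed space are coboundaries. -/

namespace MPf10cd3

variable {W : Type*} [NormedAddCommGroup W] [NormedSpace ℝ W]

/-- The point `u + (i/N)(v-u)`. -/
noncomputable def seg (u v : W) (N i : ℕ) : W := AffineMap.lineMap u v ((i : ℝ) / N)

theorem seg_zero (u v : W) (N : ℕ) : seg u v N 0 = u := by simp [seg]

theorem seg_last (u v : W) {N : ℕ} (hN : 0 < N) : seg u v N N = v := by
  have : (N : ℝ) ≠ 0 := by positivity
  simp [seg, div_self this]

theorem dist_seg_succ (u v : W) {N : ℕ} (hN : 0 < N) (i : ℕ) :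
    dist (seg u v N i) (seg u v N (i + 1)) = dist u v / N := by
  unfold seg
  rw [dist_lineMap_lineMap]
  have h : dist ((i : ℝ) / N) (((i + 1 : ℕ) : ℝ) / N) = 1 / N := by
    rw [Real.dist_eq]
    have : (i : ℝ) / N - ((i + 1 : ℕ) : ℝ) / N = -(1 / N) := by push_cast; ring
    rw [this, abs_neg, abs_of_nonneg (by positivity)]
  rw [h]; ring

theorem seg_mem {C : Set W} (hC : Convex ℝ C) {u v : W} (hu : u ∈ C) (hv : v ∈ C) {N i : ℕ}
    (hN : 0 < N) (hi : i ≤ N) : seg u v N i ∈ C := by
  apply hC.lineMap_mem hu hv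
  have h1 : (0 : ℝ) < N := by positivity
  refine ⟨by positivity, ?_⟩
  rw [div_le_one h1]
  exact_mod_cast hi

/-- A function on a convex set which is locally constant at a fixed scale is constant. -/
theorem const_of_local {α : Type*} {C : Set W} (hC : Convex ℝ C) {ε : ℝ} (hε : 0 < ε)
    {f : W → α} (hf : ∀ u ∈ C, ∀ v ∈ C, dist u v < ε → f u = f v) {u v : W} (hu : u ∈ C)
    (hv : v ∈ C) : f u = f v := by
  obtain ⟨N, hN⟩ := exists_nat_gt (dist u v / ε)
  have hNr : (0 : ℝ) < N := lt_of_le_of_lt (by positivity) hN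
  have hN0 : 0 < N := by exact_mod_cast hNr
  have hstep : dist u v / N < ε := by
    rw [div_lt_iff₀ hε] at hN
    rw [div_lt_iff₀ hNr]
    linarith [mul_comm (N : ℝ) ε]
  have key : ∀ i ≤ N, f u = f (seg u v N i) := by
    intro i
    induction i with
    | zero => intro _; rw [seg_zero]
    | succ i ih =>
      intro hi
      rw [ih (by omega)]
      apply hf _ (seg_mem hC hu hv hN0 (by omega)) _ (seg_mem hC hu hv hN0 hi)
      rw [dist_seg_succ u v hN0]
      exact hstep
  have := key N le_rfl
  rwa [seg_last u v hN0] at this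

/-- A coarse one-cocycle at scale `ε`. -/
def IsCoc {V : Type*} [AddCommGroup V] (c : W → W → V) (ε : ℝ) : Prop :=
  ∀ u v w, dist u v < ε → dist v w < ε → dist u w < ε → c u v + c v w = c u w

variable {V : Type*} [AddCommGroup V]

omit [NormedSpace ℝ W] in
theorem IsCoc.self {c : W → W → V} {ε : ℝ} (h : IsCoc c ε) (hε : 0 < ε) (u : W) : c u u = 0 := by
  have := h u u u (by simpa) (by simpa) (by simpa)
  simpa using this

/-- Sum of `c` along the segment from `0` to `u` cut into `N` pieces. -/
noncomputable def pot (c : W → W → V) (N : ℕ) (u : W) : V :=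
  ∑ i ∈ Finset.range N, c (((i : ℝ) / N) • u) ((((i + 1 : ℕ) : ℝ) / N) • u)

theorem pot_zero {c : W → W → V} {ε : ℝ} (h : IsCoc c ε) (hε : 0 < ε) (N : ℕ) :
    pot c N 0 = 0 := by
  unfold pot
  simp [h.self hε]

theorem pot_sub {c : W → W → V} {ε : ℝ} (h : IsCoc c ε) (hε : 0 < ε) {N : ℕ} (hN : 0 < N)
    {u v : W} (hu : ‖u‖ / N < ε / 2) (hv : ‖v‖ / N < ε / 2) (huv : dist u v < ε / 2) :
    pot c N v - pot c N u = c u v := by
  have hNr : (0 : ℝ) < N := by positivity
  have key : ∀ k ≤ N, (∑ i ∈ Finset.range k, c (((i : ℝ) / N) • u) ((((i + 1 : ℕ) : ℝ) / N) • u))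
      + c (((k : ℝ) / N) • u) (((k : ℝ) / N) • v) =
      ∑ i ∈ Finset.range k, c (((i : ℝ) / N) • v) ((((i + 1 : ℕ) : ℝ) / N) • v) := by
    intro k
    induction k with
    | zero => intro _; simp [h.self hε]
    | succ k ih =>
      intro hk
      have ih' := ih (by omega)
      rw [Finset.sum_range_succ, Finset.sum_range_succ, ← ih']
      set a := ((k : ℝ) / N) • u with ha
      set a' := (((k + 1 : ℕ) : ℝ) / N) • u with ha'
      set b := ((k : ℝ) / N) • v with hb
      set b' := (((k + 1 : ℕ) : ℝ) / N) • v with hb'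
      have d1 : dist a a' < ε / 2 := by
        rw [ha, ha', dist_eq_norm, ← sub_smul, norm_smul]
        have : (k : ℝ) / N - ((k + 1 : ℕ) : ℝ) / N = -(1 / N) := by push_cast; ring
        rw [this, norm_neg, Real.norm_of_nonneg (by positivity)]
        calc 1 / (N : ℝ) * ‖u‖ = ‖u‖ / N := by ring
          _ < ε / 2 := hu
      have d2 : dist b b' < ε / 2 := by
        rw [hb, hb', dist_eq_norm, ← sub_smul, norm_smul]
        have : (k : ℝ) / N - ((k + 1 : ℕ) : ℝ) / N = -(1 / N) := by push_cast; ring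
        rw [this, norm_neg, Real.norm_of_nonneg (by positivity)]
        calc 1 / (N : ℝ) * ‖v‖ = ‖v‖ / N := by ring
          _ < ε / 2 := hv
      have hle : ∀ j : ℕ, j ≤ N → ((j : ℝ) / N) ≤ 1 := by
        intro j hj
        rw [div_le_one hNr]; exact_mod_cast hj
      have d3 : dist a b < ε / 2 := by
        rw [ha, hb, dist_smul₀, Real.norm_of_nonneg (by positivity)]
        calc ((k : ℝ) / N) * dist u v ≤ 1 * dist u v :=
              mul_le_mul_of_nonneg_right (hle k (by omega)) dist_nonneg
          _ < ε / 2 := by rw [one_mul]; exact huv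
      have d4 : dist a' b' < ε / 2 := by
        rw [ha', hb', dist_smul₀, Real.norm_of_nonneg (by positivity)]
        calc (((k + 1 : ℕ) : ℝ) / N) * dist u v ≤ 1 * dist u v :=
              mul_le_mul_of_nonneg_right (hle (k + 1) hk) dist_nonneg
          _ < ε / 2 := by rw [one_mul]; exact huv
      have e1 : c a a' + c a' b' = c a b' :=
        h a a' b' (by linarith) (by linarith) (by linarith [dist_triangle a a' b'])
      have e2 : c a b + c b b' = c a b' :=
        h a b b' (by linarith) (by linarith) (by linarith [dist_triangle a a' b'])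
      rw [add_assoc, e1, add_assoc, e2]
  have := key N le_rfl
  have hNN : (N : ℝ) / N = 1 := div_self hNr.ne'
  rw [hNN, one_smul, one_smul] at this
  unfold pot
  rw [← this]; abel

/-- Every coarse cocycle on a normed space has a global potential. -/
theorem exists_potential {c : W → W → V} {ε : ℝ} (h : IsCoc c ε) (hε : 0 < ε) :
    ∃ f : W → V, ∀ u v, dist u v < ε / 2 → f v - f u = c u v := by
  classical
  let n : ℝ → ℕ := fun R => ⌊2 * R / ε⌋₊ + 1
  have hn0 : ∀ R, 0 < n R := fun R => Nat.succ_pos _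
  have hn : ∀ R, R / n R < ε / 2 := by
    intro R
    have h1 : 2 * R / ε < n R := by
      have := Nat.lt_floor_add_one (2 * R / ε)
      simpa [n] using this
    have h2 : (0 : ℝ) < n R := by exact_mod_cast hn0 R
    rw [div_lt_iff₀ hε] at h1
    rw [div_lt_iff₀ h2]
    linarith
  have mono : ∀ {R R' : ℝ}, R ≤ R' → R / n R' < ε / 2 := by
    intro R R' hR
    have h2 : (0 : ℝ) < n R' := by exact_mod_cast hn0 R'
    exact lt_of_le_of_lt (div_le_div_of_nonneg_right hR h2.le) (hn R')
  -- uniqueness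
  have uniq : ∀ (R : ℝ) (u : W), ‖u‖ ≤ R → pot c (n ‖u‖) u = pot c (n R) u := by
    intro R u hu
    have hC : Convex ℝ (Metric.closedBall (0 : W) ‖u‖) := convex_closedBall _ _
    have := const_of_local (f := fun w => pot c (n R) w - pot c (n ‖u‖) w) hC
      (half_pos hε) (fun w hw w' hw' hd => by
        rw [mem_closedBall_zero_iff] at hw hw'
        have e1 := pot_sub h hε (hn0 R) (u := w) (v := w') (mono (hw.trans hu)) (mono (hw'.trans hu)) hd
        have e2 := pot_sub h hε (hn0 ‖u‖) (u := w) (v := w') (mono hw) (mono hw') hd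
        have e3 : pot c (n R) w' - pot c (n R) w = pot c (n ‖u‖) w' - pot c (n ‖u‖) w := by
          rw [e1, e2]
        have e4 : pot c (n R) w' - pot c (n ‖u‖) w' = pot c (n R) w - pot c (n ‖u‖) w := by
          rw [sub_eq_sub_iff_add_eq_add] at e3 ⊢
          rw [e3, add_comm]
        exact e4.symm)
      (u := u) (v := 0) (by simp) (by simp)
    simp only [pot_zero h hε, sub_zero] at this
    exact (sub_eq_zero.mp this).symm
  refine ⟨fun u => pot c (n ‖u‖) u, fun u v huv => ?_⟩
  have hu : ‖u‖ ≤ max ‖u‖ ‖v‖ := le_max_left _ _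
  have hv : ‖v‖ ≤ max ‖u‖ ‖v‖ := le_max_right _ _
  show pot c (n ‖v‖) v - pot c (n ‖u‖) u = c u v
  rw [uniq _ u hu, uniq _ v hv]
  exact pot_sub h hε (hn0 _) (mono hu) (mono hv) huv

end MPf10cd3
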