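import Pool.Agent.Lib.MP_f10cd3_gt.Torus

/-! Coarsely simply connected geodesic spaces are far from flat tori. -/

namespace MPf10cd3

open Real

/-- Every real coarse cocycle has a potential. -/
def CoarseSC (M : Type*) [MetricSpace M] : Prop :=
  ∀ (c : M → M → ℝ) (ε : ℝ), 0 < ε →
    (∀ x y z, dist x y < ε → dist y z < ε → dist x z < ε → c x y + c y z = c x z) →
    ∃ f : M → ℝ, ∃ η > 0, ∀ x y, dist x y < η → f y - f x = c x y

theorem int_eq_of_close {a a' h ρ r : ℝ} {k k' : ℤ} (hh : 0 < h) (h1 : |a - k * h| < ρ)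
    (h2 : |a' - k' * h| < ρ) (h3 : |a - a'| ≤ r) (h4 : 2 * ρ + r ≤ h) : k = k' := by
  by_contra hne
  have hk : (1 : ℝ) ≤ |(k : ℝ) - k'| := by
    have : (1 : ℤ) ≤ |k - k'| := Int.one_le_abs (sub_ne_zero.mpr hne)
    exact_mod_cast this
  have h5 : |((k : ℝ) - k') * h| < h := by
    have e : ((k : ℝ) - k') * h = -(a - k * h) + (a' - k' * h) + (a - a') := by ring
    rw [e]
    calc |-(a - k * h) + (a' - k' * h) + (a - a')|
        ≤ |-(a - k * h)| + |a' - k' * h| + |a - a'| := abs_add_three _ _ _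
      _ < h := by rw [abs_neg]; linarith
  rw [abs_mul, abs_of_pos hh] at h5
  nlinarith

theorem coreC {M T : Type*} [MetricSpace M] [CompactSpace M] [Nonempty M] [MetricSpace T]
    (hSC : CoarseSC M) (hG : IsGeod M) (Λ : AddSubgroup E2) {q : E2 → T}
    (hq : Function.Surjective q)
    (hd : ∀ u v, dist (q u) (q v) = Metric.infDist (u - v) (Λ : Set E2))
    (φ : E2 →+ ℝ) (hφn : ∀ w, |φ w| ≤ ‖w‖) {e : E2} (he : ‖e‖ = 1)
    (hφe : ∀ t : ℝ, φ (t • e) = t) {h : ℝ} (hh : 0 < h)
    (hφΛ : ∀ x ∈ Λ, φ x ∈ AddSubgroup.zmultiples h) {R : ℝ} {f : T → M} {g : M → T}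
    (hg : ∀ x y, |dist (g x) (g y) - dist x y| < R)
    (hf : ∀ s t, |dist (f s) (f t) - dist s t| < R)
    (hfg : ∀ x t, |dist x (f t) - dist (g x) t| < R) (h4 : 4 * R < h) : False := by
  classical
  obtain ⟨l, hl⟩ := hq.hasRightInverse
  have hdl : ∀ a b, dist a b = Metric.infDist (l a - l b) (Λ : Set E2) := by
    intro a b; rw [← hd, hl, hl]
  obtain ⟨x0⟩ := (inferInstance : Nonempty M)
  have hR : 0 < R := lt_of_le_of_lt (abs_nonneg _) (hg x0 x0)
  obtain ⟨η, hη, hηh⟩ : ∃ η : ℝ, 0 < η ∧ 4 * R + 16 * η ≤ h :=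
    ⟨(h - 4 * R) / 16, by linarith, by linarith⟩
  -- the cocycle
  have hloc : ∀ x y : M, dist x y < η → ∃ t : ℝ, |t| < R + η ∧
      φ (l (g y)) - φ (l (g x)) - t ∈ AddSubgroup.zmultiples h := by
    intro x y hxy
    obtain ⟨w, hw, hwΛ⟩ := exists_of_infDist_lt Λ (x := l (g y) - l (g x)) (r := R + η) (by
      rw [← hdl, dist_comm]
      have := (abs_lt.mp (hg x y)).2
      linarith)
    refine ⟨φ w, lt_of_le_of_lt (hφn w) hw, ?_⟩
    have := hφΛ _ hwΛ
    simpa [map_sub] using this
  let c : M → M → ℝ := fun x y =>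
    if h : ∃ t : ℝ, |t| < R + η ∧ φ (l (g y)) - φ (l (g x)) - t ∈ AddSubgroup.zmultiples h then
      Classical.choose h else 0
  have hc : ∀ x y, dist x y < η → |c x y| < R + η ∧
      φ (l (g y)) - φ (l (g x)) - c x y ∈ AddSubgroup.zmultiples h := by
    intro x y hxy
    have h1 := hloc x y hxy
    have : c x y = Classical.choose h1 := by simp only [c]; rw [dif_pos h1]
    rw [this]
    exact Classical.choose_spec h1
  have hcoc : ∀ x y z, dist x y < η → dist y z < η → dist x z < η → c x y + c y z = c x z := by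
    intro x y z hxy hyz hxz
    obtain ⟨a1, b1⟩ := hc x y hxy
    obtain ⟨a2, b2⟩ := hc y z hyz
    obtain ⟨a3, b3⟩ := hc x z hxz
    have hmem : c x y + c y z - c x z ∈ AddSubgroup.zmultiples h := by
      have := (AddSubgroup.zmultiples h).sub_mem b3 ((AddSubgroup.zmultiples h).add_mem b1 b2)
      have e : c x y + c y z - c x z = φ (l (g z)) - φ (l (g x)) - c x z -
          (φ (l (g y)) - φ (l (g x)) - c x y + (φ (l (g z)) - φ (l (g y)) - c y z)) := by ring
      rw [e]; exact this
    obtain ⟨k, hk⟩ := AddSubgroup.mem_zmultiples_iff.mp hmem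
    rw [zsmul_eq_mul] at hk
    have hk0 : (0 : ℤ) = k := by
      apply int_eq_of_close (a := 0) (a' := c x y + c y z - c x z) (ρ := η / 2)
        (r := 3 * (R + η)) hh
      · simp; linarith
      · rw [← hk, sub_self, abs_zero]; linarith
      · rw [zero_sub, abs_neg]
        calc |c x y + c y z - c x z| ≤ |c x y + c y z| + |c x z| := abs_sub _ _
          _ ≤ |c x y| + |c y z| + |c x z| := add_le_add_left (abs_add_le _ _) _
          _ ≤ 3 * (R + η) := by linarith
      · linarith
    rw [← hk0] at hk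
    have : c x y + c y z - c x z = 0 := by rw [← hk]; simp
    linarith
  obtain ⟨U, η', hη', hU⟩ := hSC c η hη hcoc
  set ε := min η η' with hε
  have hε0 : 0 < ε := lt_min hη hη'
  have hUr : ∀ x y, dist x y < ε → |U y - U x| < R + η := by
    intro x y hxy
    rw [hU x y (lt_of_lt_of_le hxy (min_le_right _ _))]
    exact (hc x y (lt_of_lt_of_le hxy (min_le_left _ _))).1
  -- scale along geodesics
  have hgeo : ∀ {α : Type _} (F : M → α) (x y : M) (γ : ℝ → M), γ 0 = x → γ 1 = y →
      (∀ s ∈ Set.Icc (0 : ℝ) 1, ∀ t ∈ Set.Icc (0 : ℝ) 1, dist (γ s) (γ t) = dist x y * |s - t|) →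
      (∀ s ∈ Set.Icc (0 : ℝ) 1, ∀ t ∈ Set.Icc (0 : ℝ) 1, dist (γ s) (γ t) < ε →
        F (γ s) = F (γ t)) → F x = F y := by
    intro α F x y γ h0 h1 hγ hF
    have hpos : 0 < ε / (dist x y + 1) := by positivity
    have := const_of_local (C := Set.Icc (0 : ℝ) 1) (convex_Icc 0 1) hpos (f := fun s => F (γ s))
      (fun s hs t ht hst => by
        apply hF s hs t ht
        rw [hγ s hs t ht]
        rw [Real.dist_eq, lt_div_iff₀ (by positivity)] at hst
        have := abs_nonneg (s - t)
        have := dist_nonneg (x := x) (y := y)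
        nlinarith) (u := 0) (v := 1) (by simp) (by simp)
    simpa [h0, h1] using this
  -- compatibility with the covering
  have hmod : ∀ x, U x - φ (l (g x)) - (U x0 - φ (l (g x0))) ∈ AddSubgroup.zmultiples h := by
    intro x
    obtain ⟨γ, h0, h1, hγ⟩ := hG x0 x
    have hq' := hgeo (fun x => (QuotientAddGroup.mk (U x - φ (l (g x))) : ℝ ⧸ AddSubgroup.zmultiples h))
      x0 x γ h0 h1 hγ (fun s _ t _ hst => by
        show (QuotientAddGroup.mk _ : ℝ ⧸ AddSubgroup.zmultiples h) = QuotientAddGroup.mk _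
        rw [QuotientAddGroup.eq]
        have h1 := (hc _ _ (lt_of_lt_of_le hst (min_le_left _ _))).2
        have h2 := hU _ _ (lt_of_lt_of_le hst (min_le_right _ _))
        rw [← h2] at h1
        have := (AddSubgroup.zmultiples h).neg_mem h1
        have e : -(U (γ s) - φ (l (g (γ s)))) + (U (γ t) - φ (l (g (γ t)))) =
          -(φ (l (g (γ t))) - φ (l (g (γ s))) - (U (γ t) - U (γ s))) := by ring
        rw [e]; exact this)
    have hq'' : (QuotientAddGroup.mk (U x0 - φ (l (g x0))) : ℝ ⧸ AddSubgroup.zmultiples h) =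
      QuotientAddGroup.mk (U x - φ (l (g x))) := hq'
    rw [QuotientAddGroup.eq] at hq''
    have e : U x - φ (l (g x)) - (U x0 - φ (l (g x0))) =
      -(U x0 - φ (l (g x0))) + (U x - φ (l (g x))) := by ring
    rw [e]; exact hq''
  set C := U x0 - φ (l (g x0)) with hC
  -- the geodesic line
  let τ : ℝ → T := fun t => q (t • e)
  have hτ : ∀ s t, dist (τ s) (τ t) ≤ |s - t| := by
    intro s t
    show dist (q (s • e)) (q (t • e)) ≤ |s - t|
    rw [hd]
    have := infDist_le_of_sub_mem Λ (x := s • e - t • e) (w := s • e - t • e)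
      (by rw [sub_self]; exact Λ.zero_mem)
    rw [← sub_smul, norm_smul, he, mul_one, Real.norm_eq_abs, sub_smul] at this
    exact this
  set ρ' := 3 * R / 2 + 2 * η with hρ'
  have hnear : ∀ (x : M) (t : ℝ), dist (g x) (τ t) < ρ' →
      |(U x - C - t) - (round ((U x - C - t) / h) : ℤ) * h| < ρ' := by
    intro x t hxt
    obtain ⟨w, hw, hwΛ⟩ := exists_of_infDist_lt Λ (x := l (g x) - t • e) (r := ρ') (by
      rw [← hd, hl]; exact hxt)
    have h1 := hφΛ _ hwΛ
    rw [map_sub, map_sub, hφe] at h1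
    have h2 := (AddSubgroup.zmultiples h).add_mem (hmod x) h1
    obtain ⟨k, hk⟩ := AddSubgroup.mem_zmultiples_iff.mp h2
    rw [zsmul_eq_mul] at hk
    have hk' : U x - C - t - k * h = φ w := by rw [hk]; ring
    have hw' : |φ w| < ρ' := lt_of_le_of_lt (hφn w) hw
    have hr := round_le ((U x - C - t) / h) k
    have e1 : ∀ n : ℤ, |(U x - C - t) - n * h| = |(U x - C - t) / h - n| * h := by
      intro n
      rw [← abs_of_pos hh, ← abs_mul, abs_of_pos hh]
      congr 1
      field_simp
    rw [e1]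
    calc |(U x - C - t) / h - (round ((U x - C - t) / h) : ℤ)| * h
        ≤ |(U x - C - t) / h - k| * h := mul_le_mul_of_nonneg_right hr hh.le
      _ = |φ w| := by rw [← e1, hk']
      _ < ρ' := hw'
  let K : M → ℝ → ℤ := fun x t => round ((U x - C - t) / h)
  let Y : ℝ → M := fun t => f (τ t)
  have hY0 : ∀ t, dist (g (Y t)) (τ t) < R := by
    intro t
    have := (abs_lt.mp (hfg (Y t) (τ t))).1
    simp only [Y, dist_self] at this
    linarith
  have hYd : ∀ s t, dist (Y s) (Y t) < |s - t| + R := by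
    intro s t
    have h1 := (abs_lt.mp (hf (τ s) (τ t))).2
    have h2 := hτ s t
    show dist (f (τ s)) (f (τ t)) < _
    linarith
  have hKloc : ∀ s t, dist s t < η → K (Y s) s = K (Y t) t := by
    intro s t hst
    rw [Real.dist_eq] at hst
    -- first move along a geodesic
    obtain ⟨γ, h0, h1, hγ⟩ := hG (Y s) (Y t)
    have hL := hYd s t
    have hnearγ : ∀ r ∈ Set.Icc (0 : ℝ) 1, dist (g (γ r)) (τ s) < ρ' := by
      intro r hr
      have hLnn := dist_nonneg (x := Y s) (y := Y t)
      rcases le_total r (1 / 2) with hr2 | hr2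
      · have e1 := hγ r hr 0 (by simp)
        rw [h0, sub_zero, abs_of_nonneg hr.1] at e1
        have e2 := (abs_lt.mp (hfg (γ r) (τ s))).1
        have e3 : dist (γ r) (f (τ s)) ≤ dist (Y s) (Y t) / 2 := by
          show dist (γ r) (Y s) ≤ _
          rw [e1]; nlinarith
        rw [hρ']; linarith
      · have e1 := hγ r hr 1 (by simp)
        rw [h1] at e1
        have e0 : |r - 1| = 1 - r := by rw [abs_sub_comm, abs_of_nonneg (by linarith [hr.2])]
        rw [e0] at e1
        have e2 := (abs_lt.mp (hfg (γ r) (τ t))).1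
        have e3 : dist (γ r) (f (τ t)) ≤ dist (Y s) (Y t) / 2 := by
          show dist (γ r) (Y t) ≤ _
          rw [e1]; nlinarith
        have e4 := dist_triangle (g (γ r)) (τ t) (τ s)
        have e5 := hτ t s
        rw [abs_sub_comm] at e5
        rw [hρ']; linarith
    have step1 : K (Y s) s = K (Y t) s := by
      apply hgeo (fun x => K x s) (Y s) (Y t) γ h0 h1 hγ
      intro r hr r' hr' hrr
      apply int_eq_of_close hh (hnear _ _ (hnearγ r hr)) (hnear _ _ (hnearγ r' hr'))
        (r := R + η) _ (by rw [hρ']; linarith)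
      have := (hUr (γ r) (γ r') hrr).le
      rw [abs_sub_comm] at this
      have e : U (γ r) - C - s - (U (γ r') - C - s) = U (γ r) - U (γ r') := by ring
      rw [e]; exact this
    have step2 : K (Y t) s = K (Y t) t := by
      have n1 : dist (g (Y t)) (τ s) < ρ' := by
        have e4 := dist_triangle (g (Y t)) (τ t) (τ s)
        have e5 := hτ t s
        rw [abs_sub_comm] at e5
        have := hY0 t
        rw [hρ']; linarith
      have n2 : dist (g (Y t)) (τ t) < ρ' := by
        have := hY0 t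
        rw [hρ']; linarith
      apply int_eq_of_close hh (hnear _ _ n1) (hnear _ _ n2) (r := η) _ (by rw [hρ']; linarith)
      have e : U (Y t) - C - s - (U (Y t) - C - t) = -(s - t) := by ring
      rw [e, abs_neg]; exact hst.le
    rw [step1, step2]
  have hKconst : ∀ t, K (Y t) t = K (Y 0) 0 := fun t => const_line hη hKloc t 0
  -- boundedness
  obtain ⟨B, hB⟩ : ∃ B : ℝ, ∀ x, |U x| ≤ B := by
    have htb : TotallyBounded (Set.univ : Set M) := isCompact_univ.totallyBounded
    obtain ⟨S, hS, hcov⟩ := Metric.totallyBounded_iff.mp htb ε hε0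
    obtain ⟨B, hB⟩ := (hS.image (fun x => |U x|)).bddAbove
    refine ⟨B + (R + η), fun x => ?_⟩
    have hx := hcov (Set.mem_univ x)
    simp only [Set.mem_iUnion, Metric.mem_ball] at hx
    obtain ⟨y, hy, hxy⟩ := hx
    have h1 : |U y| ≤ B := hB ⟨y, hy, rfl⟩
    have h2 := hUr y x (by rwa [dist_comm])
    have h3 : |U x| ≤ |U x - U y| + |U y| := by
      calc |U x| = |(U x - U y) + U y| := by ring_nf
        _ ≤ _ := abs_add_le _ _
    linarith
  -- contradiction
  set k0 := K (Y 0) 0 with hk0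
  set t := B + |C| + |(k0 : ℝ) * h| + ρ' + 1 with ht
  have h5 : dist (g (Y t)) (τ t) < ρ' := by
    have := hY0 t
    rw [hρ']; linarith
  have h6 := hnear _ _ h5
  have h7 : (round ((U (Y t) - C - t) / h) : ℤ) = k0 := hKconst t
  rw [h7] at h6
  have h8 := (abs_lt.mp h6).1
  have h9 := (abs_le.mp (hB (Y t))).2
  have h10 := neg_abs_le C
  have h11 := neg_abs_le ((k0 : ℝ) * h)
  linarith

end MPf10cd3
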