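import Pool.Agent.Lib.MP_f10cd3_gt.Main

/-! Sharper estimates for the diameter of a flat torus. -/

namespace MPf10cd3

open Real

/-- Inertia identity for a point of a triangle with vertices `0, c, b`. -/
theorem inertia (c b : E2) (x y : ℝ) :
    (1 - x - y) * ‖x • c + y • b‖ ^ 2 + x * ‖x • c + y • b - c‖ ^ 2 +
      y * ‖x • c + y • b - b‖ ^ 2 =
    (1 - x - y) * x * ‖c‖ ^ 2 + (1 - x - y) * y * ‖b‖ ^ 2 +
      x * y * (‖c‖ ^ 2 + ‖b‖ ^ 2 - 2 * inner ℝ c b) := by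
  simp only [norm_sq_E2, inner_E2]
  simp
  ring

theorem triangle_ineq {A B P x y : ℝ} (hA : 0 < A) (hP : 0 ≤ P) (hPA : 2 * P ≤ A) (hAB : A ≤ B) :
    2 * A * ((1 - x - y) * x * A + (1 - x - y) * y * B + x * y * (A + B - 2 * P)) ≤
      A * B - P ^ 2 := by
  set μ := x + y with hμ
  have h1 : 4 * (x * y) ≤ μ ^ 2 := by rw [hμ]; nlinarith [sq_nonneg (x - y)]
  have h2 : (1 - x - y) * x * A + (1 - x - y) * y * B + x * y * (A + B - 2 * P) =
      (1 - μ) * μ * A + (x * y) * (2 * A - 2 * P) + y * (1 - y) * (B - A) := by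
    rw [hμ]; ring
  rw [h2]
  have h3 : (x * y) * (2 * A - 2 * P) ≤ μ ^ 2 / 4 * (2 * A - 2 * P) :=
    mul_le_mul_of_nonneg_right (by linarith) (by linarith)
  have h4 : y * (1 - y) * (B - A) ≤ 1 / 4 * (B - A) :=
    mul_le_mul_of_nonneg_right (by nlinarith [sq_nonneg (y - 1 / 2)]) (by linarith)
  have h5 : 2 * (A + P) * (μ * A - (A + P) * μ ^ 2 / 2) ≤ A ^ 2 := by
    nlinarith [sq_nonneg ((A + P) * μ - A)]
  have h6 : A ^ 3 ≤ (A - P) * (A + P) ^ 2 := by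
    have : (A - P) * (A + P) ^ 2 - A ^ 3 = P * (A ^ 2 - A * P - P ^ 2) := by ring
    have h7 : 0 ≤ A ^ 2 - A * P - P ^ 2 := by nlinarith
    nlinarith [mul_nonneg hP h7]
  have hAP : 0 < A + P := by linarith
  have h8 : 2 * A * (μ * A - (A + P) * μ ^ 2 / 2) ≤ A ^ 2 - P ^ 2 := by
    have e1 : (A + P) * (2 * A * (μ * A - (A + P) * μ ^ 2 / 2)) ≤ (A + P) * (A ^ 2 - P ^ 2) := by
      calc (A + P) * (2 * A * (μ * A - (A + P) * μ ^ 2 / 2))
          = A * (2 * (A + P) * (μ * A - (A + P) * μ ^ 2 / 2)) := by ring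
        _ ≤ A * A ^ 2 := mul_le_mul_of_nonneg_left h5 hA.le
        _ = A ^ 3 := by ring
        _ ≤ (A - P) * (A + P) ^ 2 := h6
        _ = (A + P) * (A ^ 2 - P ^ 2) := by ring
    exact le_of_mul_le_mul_left e1 hAP
  have h9 : (1 - μ) * μ * A + μ ^ 2 / 4 * (2 * A - 2 * P) = μ * A - (A + P) * μ ^ 2 / 2 := by ring
  have h10 : 2 * A * ((1 - μ) * μ * A + (x * y) * (2 * A - 2 * P) + y * (1 - y) * (B - A)) ≤
      2 * A * ((μ * A - (A + P) * μ ^ 2 / 2) + 1 / 4 * (B - A)) := by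
    apply mul_le_mul_of_nonneg_left _ (by positivity)
    linarith
  nlinarith

/-- One of three points is close. -/
theorem exists_near {c b : E2} (hc : c ≠ 0) (hP : 0 ≤ inner ℝ c b)
    (hPA : 2 * inner ℝ c b ≤ ‖c‖ ^ 2) (hAB : ‖c‖ ≤ ‖b‖) {x y : ℝ} (hx : 0 ≤ x) (hy : 0 ≤ y)
    (hxy : x + y ≤ 1) {K : ℝ} (hK : 2 * ‖c‖ ^ 2 * K ^ 2 = ‖c‖ ^ 2 * ‖b‖ ^ 2 - (inner ℝ c b) ^ 2)
    (hK0 : 0 ≤ K) :
    ‖x • c + y • b‖ ≤ K ∨ ‖x • c + y • b - c‖ ≤ K ∨ ‖x • c + y • b - b‖ ≤ K := by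
  by_contra hcon
  push Not at hcon
  obtain ⟨h1, h2, h3⟩ := hcon
  have hc' : 0 < ‖c‖ := norm_pos_iff.mpr hc
  have hA : 0 < ‖c‖ ^ 2 := by positivity
  have hAB2 : ‖c‖ ^ 2 ≤ ‖b‖ ^ 2 := pow_le_pow_left₀ hc'.le hAB 2
  have e1 : K ^ 2 < ‖x • c + y • b‖ ^ 2 := pow_lt_pow_left₀ h1 hK0 (by norm_num)
  have e2 : K ^ 2 < ‖x • c + y • b - c‖ ^ 2 := pow_lt_pow_left₀ h2 hK0 (by norm_num)
  have e3 : K ^ 2 < ‖x • c + y • b - b‖ ^ 2 := pow_lt_pow_left₀ h3 hK0 (by norm_num)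
  have e4 := inertia c b x y
  have e5 := triangle_ineq (x := x) (y := y) hA hP hPA hAB2
  rw [← e4] at e5
  have e6 : K ^ 2 < (1 - x - y) * ‖x • c + y • b‖ ^ 2 + x * ‖x • c + y • b - c‖ ^ 2 +
      y * ‖x • c + y • b - b‖ ^ 2 := by
    have f1 : (1 - x - y) * K ^ 2 ≤ (1 - x - y) * ‖x • c + y • b‖ ^ 2 :=
      mul_le_mul_of_nonneg_left e1.le (by linarith)
    have f2 : x * K ^ 2 ≤ x * ‖x • c + y • b - c‖ ^ 2 := mul_le_mul_of_nonneg_left e2.le hx
    have f3 : y * K ^ 2 ≤ y * ‖x • c + y • b - b‖ ^ 2 := mul_le_mul_of_nonneg_left e3.le hy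
    rcases hx.lt_or_eq with hx' | hx'
    · have : x * K ^ 2 < x * ‖x • c + y • b - c‖ ^ 2 := mul_lt_mul_of_pos_left e2 hx'
      nlinarith
    · rcases hy.lt_or_eq with hy' | hy'
      · have : y * K ^ 2 < y * ‖x • c + y • b - b‖ ^ 2 := mul_lt_mul_of_pos_left e3 hy'
        nlinarith
      · rw [← hx', ← hy'] at e1 e2 e3 ⊢
        simpa using e1
  nlinarith

/-- Covering radius of a reduced lattice. -/
theorem covering {c b : E2} (hc : c ≠ 0) (hb : hgt c b ≠ 0) (hP : 0 ≤ inner ℝ c b)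
    (hPA : 2 * inner ℝ c b ≤ ‖c‖ ^ 2) (hAB : ‖c‖ ≤ ‖b‖) (w : E2) :
    ∃ m n : ℤ, ‖w - (m • c + n • b)‖ ≤ |hgt c b| / √2 := by
  have hc' : 0 < ‖c‖ := norm_pos_iff.mpr hc
  set K := |hgt c b| / √2 with hKdef
  have hK0 : 0 ≤ K := by positivity
  have s2 : √2 ^ 2 = 2 := Real.sq_sqrt (by norm_num)
  have hK : 2 * ‖c‖ ^ 2 * K ^ 2 = ‖c‖ ^ 2 * ‖b‖ ^ 2 - (inner ℝ c b) ^ 2 := by
    have h1 := pyth hc b
    rw [hKdef, div_pow, s2, sq_abs]
    have h2 : ‖c‖ ^ 2 * ‖b‖ ^ 2 = (inner ℝ c b) ^ 2 + ‖c‖ ^ 2 * (hgt c b) ^ 2 := by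
      rw [h1]; field_simp
    linarith
  -- coordinates
  set β := hgt c w / hgt c b with hβ
  set α := (inner ℝ c w - β * inner ℝ c b) / ‖c‖ ^ 2 with hα
  have hw : w = α • c + β • b := by
    rw [← sub_eq_zero, ← norm_eq_zero, ← sq_eq_zero_iff]
    rw [pyth hc]
    have i1 : inner ℝ c (w - (α • c + β • b)) = 0 := by
      rw [inner_sub_right, inner_add_right, inner_smul_right, inner_smul_right,
        real_inner_self_eq_norm_sq, hα]
      field_simp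
      ring
    have i2 : hgt c (w - (α • c + β • b)) = 0 := by
      have lin : ∀ (r : ℝ) (v : E2), hgt c (r • v) = r * hgt c v := by
        intro r v
        rw [hgt_apply, hgt_apply]
        simp
        ring
      rw [map_sub, map_add, lin, lin, hgt_self, hβ]
      field_simp
      ring
    rw [i1, i2]; simp
  set m := ⌊α⌋ with hm
  set n := ⌊β⌋ with hn
  have x0 : 0 ≤ Int.fract α := Int.fract_nonneg α
  have x1 : Int.fract α < 1 := Int.fract_lt_one α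
  have y0 : 0 ≤ Int.fract β := Int.fract_nonneg β
  have y1 : Int.fract β < 1 := Int.fract_lt_one β
  have ha : α = m + Int.fract α := (Int.floor_add_fract α).symm
  have hb' : β = n + Int.fract β := (Int.floor_add_fract β).symm
  set x := Int.fract α
  set y := Int.fract β
  have zc : ∀ (k : ℤ) (v : E2), k • v = (k : ℝ) • v := fun k v => (Int.cast_smul_eq_zsmul ℝ k v).symm
  rcases le_total (x + y) 1 with hxy | hxy
  · rcases exists_near hc hP hPA hAB x0 y0 hxy hK hK0 with h | h | h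
    · refine ⟨m, n, ?_⟩
      have : w - (m • c + n • b) = x • c + y • b := by
        rw [hw, ha, hb', zc, zc]; module
      rw [this]; exact h
    · refine ⟨m + 1, n, ?_⟩
      have : w - ((m + 1) • c + n • b) = x • c + y • b - c := by
        rw [hw, ha, hb', zc, zc]; push_cast; module
      rw [this]; exact h
    · refine ⟨m, n + 1, ?_⟩
      have : w - (m • c + (n + 1) • b) = x • c + y • b - b := by
        rw [hw, ha, hb', zc, zc]; push_cast; module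
      rw [this]; exact h
  · rcases exists_near hc hP hPA hAB (x := 1 - x) (y := 1 - y) (by linarith) (by linarith)
      (by linarith) hK hK0 with h | h | h
    · refine ⟨m + 1, n + 1, ?_⟩
      have : w - ((m + 1) • c + (n + 1) • b) = -((1 - x) • c + (1 - y) • b) := by
        rw [hw, ha, hb', zc, zc]; push_cast; module
      rw [this, norm_neg]; exact h
    · refine ⟨m, n + 1, ?_⟩
      have : w - (m • c + (n + 1) • b) = -((1 - x) • c + (1 - y) • b - c) := by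
        rw [hw, ha, hb', zc, zc]; push_cast; module
      rw [this, norm_neg]; exact h
    · refine ⟨m + 1, n, ?_⟩
      have : w - ((m + 1) • c + n • b) = -((1 - x) • c + (1 - y) • b - b) := by
        rw [hw, ha, hb', zc, zc]; push_cast; module
      rw [this, norm_neg]; exact h

/-- A lower bound for the covering radius of a reduced lattice. -/
theorem packing {c b : E2} (hc : c ≠ 0) (hb : hgt c b ≠ 0) (hP : 0 ≤ inner ℝ c b)
    (hPA : 2 * inner ℝ c b ≤ ‖c‖ ^ 2) (hAB : ‖c‖ ≤ ‖b‖) :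
    ∃ w : E2, ∀ m n : ℤ, ‖c‖ ^ 2 / 3 ≤ ‖w - (m • c + n • b)‖ ^ 2 := by
  have hc' : 0 < ‖c‖ := norm_pos_iff.mpr hc
  have hAB2 : ‖c‖ ^ 2 ≤ ‖b‖ ^ 2 := pow_le_pow_left₀ hc'.le hAB 2
  have hdet : c 0 * b 1 - c 1 * b 0 ≠ 0 := by
    intro h; apply hb; rw [hgt_apply, h, zero_div]
  set d := c 0 * b 1 - c 1 * b 0 with hd
  set A := ‖c‖ ^ 2 with hA
  set B := ‖b‖ ^ 2 with hB
  set P := inner ℝ c b with hPdef
  -- the circumcentre
  let w : E2 := !₂[(A * b 1 - B * c 1) / (2 * d), (B * c 0 - A * b 0) / (2 * d)]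
  have w0 : w 0 = (A * b 1 - B * c 1) / (2 * d) := rfl
  have w1 : w 1 = (B * c 0 - A * b 0) / (2 * d) := rfl
  have hwc : inner ℝ w c = A / 2 := by
    rw [inner_E2, w0, w1]; field_simp; rw [hd]; ring
  have hwb : inner ℝ w b = B / 2 := by
    rw [inner_E2, w0, w1]; field_simp; rw [hd]; ring
  have hAval : A = c 0 ^ 2 + c 1 ^ 2 := norm_sq_E2 c
  have hBval : B = b 0 ^ 2 + b 1 ^ 2 := norm_sq_E2 b
  have hPval : P = c 0 * b 0 + c 1 * b 1 := inner_E2 c b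
  have hd2 : d ^ 2 = A * B - P ^ 2 := by rw [hAval, hBval, hPval, hd]; ring
  have hw2 : 4 * d ^ 2 * ‖w‖ ^ 2 = A * B * (A + B - 2 * P) := by
    rw [norm_sq_E2, w0, w1, div_pow, div_pow]
    field_simp
    rw [hAval, hBval, hPval]
    ring
  have hd2pos : 0 < d ^ 2 := by positivity
  have hnorm : A / 3 ≤ ‖w‖ ^ 2 := by
    have key : 4 * d ^ 2 * (A / 3) ≤ 4 * d ^ 2 * ‖w‖ ^ 2 := by
      rw [hw2, hd2]
      have k1 : 0 ≤ (B - P) * (B - 2 * P) := mul_nonneg (by linarith) (by linarith)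
      have k2 : 4 * (A * B - P ^ 2) / 3 ≤ B * (A + B - 2 * P) := by
        nlinarith
      have hA0 : 0 ≤ A := by positivity
      nlinarith
    exact le_of_mul_le_mul_left key (by positivity)
  refine ⟨w, fun m n => ?_⟩
  have zc : ∀ (k : ℤ) (v : E2), k • v = (k : ℝ) • v := fun k v => (Int.cast_smul_eq_zsmul ℝ k v).symm
  have hexp : ‖w - (m • c + n • b)‖ ^ 2 = ‖w‖ ^ 2 + ((m : ℝ) * (m - 1) * A + (n : ℝ) * (n - 1) * B +
      2 * m * n * P) := by
    rw [zc, zc, norm_sub_sq_real, inner_add_right, inner_smul_right, inner_smul_right, hwc, hwb,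
      norm_add_sq_real, norm_smul, norm_smul, inner_smul_left, inner_smul_right,
      mul_pow, mul_pow, Real.norm_eq_abs, Real.norm_eq_abs, sq_abs, sq_abs]
    simp only [RCLike.conj_to_real]
    ring
  rw [hexp]
  have hmm : (0 : ℝ) ≤ (m : ℝ) * (m - 1) := by
    have : (0 : ℤ) ≤ m * (m - 1) := by
      rcases le_or_gt m 0 with h | h <;> nlinarith
    exact_mod_cast this
  have hnn : (0 : ℝ) ≤ (n : ℝ) * (n - 1) := by
    have : (0 : ℤ) ≤ n * (n - 1) := by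
      rcases le_or_gt n 0 with h | h <;> nlinarith
    exact_mod_cast this
  have hA0 : 0 ≤ A := by positivity
  have hfin : 0 ≤ (m : ℝ) * (m - 1) * A + (n : ℝ) * (n - 1) * B + 2 * m * n * P := by
    rcases le_or_gt 0 ((m : ℝ) * n) with h | h
    · have := mul_nonneg hmm hA0
      have := mul_nonneg hnn (hA0.trans hAB2)
      have := mul_nonneg h hP
      nlinarith
    · have q1 : (m : ℝ) * n * A ≤ 2 * m * n * P := by nlinarith
      have q2 : (n : ℝ) * (n - 1) * A ≤ (n : ℝ) * (n - 1) * B := mul_le_mul_of_nonneg_left hAB2 hnn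
      have q3 : (0 : ℝ) ≤ (m : ℝ) * (m - 1) + n * (n - 1) + m * n := by
        have : (0 : ℤ) ≤ m * (m - 1) + n * (n - 1) + m * n := by
          by_contra hlt
          push Not at hlt
          have : m * (m - 1) + n * (n - 1) + m * n ≤ -1 := by omega
          nlinarith [sq_nonneg (m - n), sq_nonneg (3 * m + 3 * n - 2)]
        exact_mod_cast this
      nlinarith [mul_nonneg q3 hA0]
  linarith

/-- A reduced basis. -/
theorem exists_reduced {T : Type*} [MetricSpace T] {Λ : AddSubgroup E2} {q : E2 → T} {c : E2}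
    {h : ℝ} (D : TorusData T Λ q c h) :
    ∃ c' b : E2, ‖c'‖ = ‖c‖ ∧ c' ≠ 0 ∧ hgt c' b ≠ 0 ∧ |hgt c' b| = h ∧ 0 ≤ inner ℝ c' b ∧
      2 * inner ℝ c' b ≤ ‖c'‖ ^ 2 ∧ ‖c'‖ ≤ ‖b‖ ∧ ∀ x, x ∈ Λ ↔ ∃ m n : ℤ, x = m • c' + n • b := by
  obtain ⟨b0, hb0, hb0h⟩ := D.hb
  have hcpos : 0 < ‖c‖ := norm_pos_iff.mpr D.c0
  set k := round (inner ℝ c b0 / ‖c‖ ^ 2) with hk
  set b := b0 - k • c with hb
  have hbΛ : b ∈ Λ := Λ.sub_mem hb0 (Λ.zsmul_mem D.hcΛ k)
  have hbh : hgt c b = h := by rw [hb, map_sub, hgt_zsmul, sub_zero, hb0h]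
  have hb00 : b ≠ 0 := by
    rintro h0
    rw [h0, map_zero] at hbh
    exact D.hh.ne hbh
  have hin : |inner ℝ c b| ≤ ‖c‖ ^ 2 / 2 := by
    have h1 : inner ℝ c b = (inner ℝ c b0 / ‖c‖ ^ 2 - k) * ‖c‖ ^ 2 := by
      rw [hb, inner_sub_right, ← Int.cast_smul_eq_zsmul ℝ k c, inner_smul_right,
        real_inner_self_eq_norm_sq]
      field_simp
    have h2 := abs_sub_round (inner ℝ c b0 / ‖c‖ ^ 2)
    rw [h1, abs_mul, abs_of_nonneg (by positivity : (0 : ℝ) ≤ ‖c‖ ^ 2)]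
    have : (0 : ℝ) ≤ ‖c‖ ^ 2 := by positivity
    nlinarith
  have hnb : ‖c‖ ≤ ‖b‖ := D.hmin b hbΛ hb00
  have hspan : ∀ x, x ∈ Λ ↔ ∃ m n : ℤ, x = m • c + n • b := by
    intro x
    constructor
    · intro hx
      obtain ⟨n, hn⟩ := AddSubgroup.mem_zmultiples_iff.mp (D.hφΛ x hx)
      obtain ⟨m, hm⟩ := reduce D.c0 (x - n • b)
      have e1 : hgt c (x - n • b) = 0 := by
        rw [map_sub, map_zsmul, hbh, hn, sub_self]
      rw [e1] at hm
      have hmem : x - n • b - m • c ∈ Λ :=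
        Λ.sub_mem (Λ.sub_mem hx (Λ.zsmul_mem hbΛ n)) (Λ.zsmul_mem D.hcΛ m)
      have hz : x - n • b - m • c = 0 := by
        by_contra hne
        have := D.hmin _ hmem hne
        nlinarith
      refine ⟨m, n, ?_⟩
      rw [sub_sub, sub_eq_zero] at hz
      rw [hz, add_comm]
    · rintro ⟨m, n, rfl⟩
      exact Λ.add_mem (Λ.zsmul_mem D.hcΛ m) (Λ.zsmul_mem hbΛ n)
  rw [abs_le] at hin
  rcases le_total 0 (inner ℝ c b) with hs | hs
  · refine ⟨c, b, rfl, D.c0, by rw [hbh]; exact D.hh.ne', by rw [hbh, abs_of_pos D.hh], hs,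
      by linarith [hin.2], hnb, hspan⟩
  · have hneg : hgt (-c) b = -h := by
      rw [← hbh, hgt_apply, hgt_apply, norm_neg]
      simp
      ring
    refine ⟨-c, b, norm_neg c, neg_ne_zero.mpr D.c0, by rw [hneg]; exact neg_ne_zero.mpr D.hh.ne',
      by rw [hneg, abs_neg, abs_of_pos D.hh], ?_, ?_, by rw [norm_neg]; exact hnb, ?_⟩
    · rw [inner_neg_left]; linarith
    · rw [inner_neg_left, norm_neg]; linarith [hin.1]
    · intro x
      rw [hspan]
      constructor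
      · rintro ⟨m, n, rfl⟩
        exact ⟨-m, n, by simp⟩
      · rintro ⟨m, n, rfl⟩
        exact ⟨-m, n, by simp⟩

/-- The diameter of a flat torus is at most the height divided by `√2`. -/
theorem dist_le_height {T : Type*} [MetricSpace T] {Λ : AddSubgroup E2} {q : E2 → T} {c : E2}
    {h : ℝ} (D : TorusData T Λ q c h) (x y : T) : dist x y ≤ h / √2 := by
  obtain ⟨c', b, -, hc0, hb0, hbh, h1, h2, h3, hΛ⟩ := exists_reduced D
  obtain ⟨u, rfl⟩ := D.surj x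
  obtain ⟨v, rfl⟩ := D.surj y
  obtain ⟨m, n, hmn⟩ := covering hc0 hb0 h1 h2 h3 (u - v)
  rw [hbh] at hmn
  rw [D.hd]
  have := Metric.infDist_le_dist_of_mem (x := u - v) (s := (Λ : Set E2))
    ((hΛ (m • c' + n • b)).mpr ⟨m, n, rfl⟩)
  rw [dist_eq_norm] at this
  exact this.trans hmn

/-- The diameter of a flat torus is at least the systole divided by `√3`. -/
theorem exists_far {T : Type*} [MetricSpace T] {Λ : AddSubgroup E2} {q : E2 → T} {c : E2}
    {h : ℝ} (D : TorusData T Λ q c h) : ∃ x y : T, ‖c‖ / √3 ≤ dist x y := by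
  obtain ⟨c', b, hcc, hc0, hb0, -, h1, h2, h3, hΛ⟩ := exists_reduced D
  obtain ⟨w, hw⟩ := packing hc0 hb0 h1 h2 h3
  refine ⟨q w, q 0, ?_⟩
  rw [D.hd, sub_zero]
  rw [Metric.le_infDist ⟨0, Λ.zero_mem⟩]
  intro x hx
  obtain ⟨m, n, rfl⟩ := (hΛ x).mp hx
  rw [dist_eq_norm, div_le_iff₀ (by positivity)]
  apply le_of_sq_le_sq _ (by positivity)
  rw [mul_pow, Real.sq_sqrt (by norm_num), ← hcc]
  linarith [hw m n]

end MPf10cd3
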