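import Pool.Agent.Lib.MP_f10cd3_gt.SphereSC

/-! Main inequalities. -/

namespace MPf10cd3

open Real

/-- Two maps with small distortion from the Gromov-Hausdorff distance. -/
theorem exists_maps {X T : Type} [MetricSpace X] [CompactSpace X] [Nonempty X] [MetricSpace T]
    [CompactSpace T] [Nonempty T] {r : ℝ} (h : GromovHausdorff.ghDist X T < r) :
    ∃ (g : X → T) (f : T → X), (∀ x y, |dist (g x) (g y) - dist x y| < 2 * r) ∧
      (∀ s t, |dist (f s) (f t) - dist s t| < 2 * r) ∧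
      ∀ x t, |dist x (f t) - dist (g x) t| < 2 * r := by
  classical
  set Φ := GromovHausdorff.optimalGHInjl X T with hΦ
  set Ψ := GromovHausdorff.optimalGHInjr X T with hΨ
  have iΦ : Isometry Φ := GromovHausdorff.isometry_optimalGHInjl X T
  have iΨ : Isometry Ψ := GromovHausdorff.isometry_optimalGHInjr X T
  have hd : Metric.hausdorffDist (Set.range Φ) (Set.range Ψ) < r := by
    rw [GromovHausdorff.hausdorffDist_optimal]; exact h
  have fin : Metric.hausdorffEDist (Set.range Φ) (Set.range Ψ) ≠ ⊤ := by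
    apply Metric.hausdorffEDist_ne_top_of_nonempty_of_bounded (Set.range_nonempty _)
      (Set.range_nonempty _)
    · exact (isCompact_range iΦ.continuous).isBounded
    · exact (isCompact_range iΨ.continuous).isBounded
  have hex : ∀ x : X, ∃ t : T, dist (Φ x) (Ψ t) < r := by
    intro x
    obtain ⟨y, hy, hyd⟩ := Metric.exists_dist_lt_of_hausdorffDist_lt (Set.mem_range_self x) hd fin
    obtain ⟨t, rfl⟩ := hy
    exact ⟨t, hyd⟩
  have hex' : ∀ t : T, ∃ x : X, dist (Φ x) (Ψ t) < r := by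
    intro t
    obtain ⟨y, hy, hyd⟩ := Metric.exists_dist_lt_of_hausdorffDist_lt' (Set.mem_range_self t) hd fin
    obtain ⟨x, rfl⟩ := hy
    exact ⟨x, hyd⟩
  choose g hg using hex
  choose f hf using hex'
  refine ⟨g, f, fun x y => ?_, fun x y => ?_, fun x t => ?_⟩
  · have h1 := hg x
    have h2 := hg y
    rw [← iΨ.dist_eq, ← iΦ.dist_eq, abs_lt]
    have t1 := dist_triangle4 (Ψ (g x)) (Φ x) (Φ y) (Ψ (g y))
    have t2 := dist_triangle4 (Φ x) (Ψ (g x)) (Ψ (g y)) (Φ y)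
    rw [dist_comm (Ψ (g x)) (Φ x)] at t1
    rw [dist_comm (Ψ (g y)) (Φ y)] at t2
    constructor <;> linarith
  · have h1 := hf x
    have h2 := hf y
    rw [← iΨ.dist_eq, ← iΦ.dist_eq, abs_lt]
    have t1 := dist_triangle4 (Φ (f x)) (Ψ x) (Ψ y) (Φ (f y))
    have t2 := dist_triangle4 (Ψ x) (Φ (f x)) (Φ (f y)) (Ψ y)
    rw [dist_comm (Ψ y) (Φ (f y))] at t1
    rw [dist_comm (Ψ x) (Φ (f x))] at t2
    constructor <;> linarith
  · have h1 := hg x
    have h2 := hf t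
    rw [← iΨ.dist_eq, ← iΦ.dist_eq, abs_lt]
    have t1 := dist_triangle4 (Φ x) (Ψ (g x)) (Ψ t) (Φ (f t))
    have t2 := dist_triangle4 (Ψ (g x)) (Φ x) (Φ (f t)) (Ψ t)
    rw [dist_comm (Ψ t) (Φ (f t))] at t1
    rw [dist_comm (Ψ (g x)) (Φ x)] at t2
    constructor <;> linarith

/-- The data of a flat torus. -/
structure TorusData (T : Type*) [MetricSpace T] (Λ : AddSubgroup E2) (q : E2 → T) (c : E2)
    (h : ℝ) : Prop where
  surj : Function.Surjective q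
  hd : ∀ u v, dist (q u) (q v) = Metric.infDist (u - v) (Λ : Set E2)
  c0 : c ≠ 0
  hmin : ∀ x ∈ Λ, x ≠ 0 → ‖c‖ ≤ ‖x‖
  hh : 0 < h
  hcΛ : c ∈ Λ
  hb : ∃ b ∈ Λ, hgt c b = h
  hφΛ : ∀ x ∈ Λ, hgt c x ∈ AddSubgroup.zmultiples h
  hφ2 : ∀ (w : E2) (t : ℝ), hgt c w - t ∈ AddSubgroup.zmultiples h → ∃ x ∈ Λ,
      ‖w - x‖ ≤ √(t ^ 2 + (‖c‖ / 2) ^ 2)
  hdiam : ∀ x y : T, dist x y ≤ √((h / 2) ^ 2 + (‖c‖ / 2) ^ 2)

theorem lat_set (a b : E2) : {w : EuclideanSpace ℝ (Fin 2) | ∃ m n : ℤ, w = m • a + n • b} =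
    (lat a b : Set E2) := by
  ext w
  simp only [SetLike.mem_coe, mem_lat]
  constructor
  · rintro ⟨m, n, h⟩; exact ⟨m, n, h.symm⟩
  · rintro ⟨m, n, h⟩; exact ⟨m, n, h.symm⟩

theorem exists_torusData {T : Type*} [MetricSpace T] {a b : E2}
    (hab : LinearIndependent ℝ ![a, b]) {q : E2 → T} (hq : Function.Surjective q)
    (hqd : ∀ u v, dist (q u) (q v) = Metric.infDist (u - v) {w | ∃ m n : ℤ, w = m • a + n • b}) :
    ∃ c h, TorusData T (lat a b) q c h := by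
  rw [lat_set] at hqd
  obtain ⟨c, hc, hc0, hmin⟩ := exists_shortest hab
  obtain ⟨h, hh, hhm⟩ := exists_height hab hc hc0 hmin
  have hcpos : 0 < ‖c‖ := norm_pos_iff.mpr hc0
  have hφΛ : ∀ x ∈ lat a b, hgt c x ∈ AddSubgroup.zmultiples h := by
    intro x hx
    rw [← hhm]; exact AddSubgroup.mem_map.mpr ⟨x, hx, rfl⟩
  have hφ2 : ∀ (w : E2) (t : ℝ), hgt c w - t ∈ AddSubgroup.zmultiples h → ∃ x ∈ lat a b,
      ‖w - x‖ ≤ √(t ^ 2 + (‖c‖ / 2) ^ 2) := by
    intro w t ht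
    rw [← hhm] at ht
    obtain ⟨y, hy, hyt⟩ := AddSubgroup.mem_map.mp ht
    obtain ⟨k, hk⟩ := reduce hc0 (w - y)
    refine ⟨y + k • c, (lat a b).add_mem hy ((lat a b).zsmul_mem hc k), ?_⟩
    apply Real.le_sqrt_of_sq_le
    rw [map_sub, hyt, sub_sub_cancel] at hk
    rw [← sub_sub]; exact hk
  have hdiam : ∀ x y : T, dist x y ≤ √((h / 2) ^ 2 + (‖c‖ / 2) ^ 2) := by
    intro x y
    obtain ⟨u, rfl⟩ := hq x
    obtain ⟨v, rfl⟩ := hq y
    rw [hqd]
    set k := round (hgt c (u - v) / h) with hk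
    have hk1 : |hgt c (u - v) - k * h| ≤ h / 2 := by
      have := abs_sub_round (hgt c (u - v) / h)
      have e : hgt c (u - v) - k * h = (hgt c (u - v) / h - k) * h := by field_simp
      rw [e, abs_mul, abs_of_pos hh]
      nlinarith
    obtain ⟨z, hz, hzn⟩ := hφ2 (u - v) (hgt c (u - v) - k * h) (by
      rw [sub_sub_cancel]
      exact AddSubgroup.mem_zmultiples_iff.mpr ⟨k, by simp⟩)
    have h5 : Metric.infDist (u - v) (lat a b : Set E2) ≤ ‖u - v - z‖ := by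
      have := Metric.infDist_le_dist_of_mem (x := u - v) (s := (lat a b : Set E2)) hz
      rwa [dist_eq_norm] at this
    refine h5.trans (hzn.trans (Real.sqrt_le_sqrt ?_))
    have : (hgt c (u - v) - k * h) ^ 2 ≤ (h / 2) ^ 2 := by
      rw [← sq_abs]
      exact pow_le_pow_left₀ (abs_nonneg _) hk1 2
    linarith
  have hb : ∃ b' ∈ lat a b, hgt c b' = h := by
    have : h ∈ (lat a b).map (hgt c) := by
      rw [hhm]; exact AddSubgroup.mem_zmultiples h
    obtain ⟨b', hb', hb''⟩ := AddSubgroup.mem_map.mp this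
    exact ⟨b', hb', hb''⟩
  exact ⟨c, h, ⟨hq, hqd, hc0, hmin, hh, hc, hb, hφΛ, hφ2, hdiam⟩⟩

variable {X T : Type*} [MetricSpace X] [MetricSpace T] {Λ : AddSubgroup E2} {q : E2 → T} {c : E2}
  {h : ℝ}

/-- Setup for the two cores. -/
theorem setup {ρ : ℝ} (hρ : 0 < ρ) (hX : IsRoundSphere ρ X) {g : X → T} {R : ℝ}
    (hg : ∀ x y, |dist (g x) (g y) - dist x y| < R) {η : ℝ} (hη : 0 < η) :
    ∃ G : ℝ × ℝ → T, Good G ∧ ∃ ε > 0, (∀ u v, dist u v < ε → dist (G u) (G v) < R + η) ∧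
      ∀ u v, dist u v < ε → ρ * π - η - R ≤ dist (G u) (G (sig v)) := by
  obtain ⟨p, hp, hp1, hp2, -⟩ := exists_polar hρ hX
  have hclose : ∀ u v, dist u v < η / (2 * ρ) → dist (p u) (p v) < η := by
    intro u v huv
    refine lt_of_le_of_lt (hp1 u v) ?_
    rw [lt_div_iff₀ (by positivity)] at huv
    linarith
  refine ⟨fun u => g (p u), hp.map₂ hp (fun x _ => g x), η / (2 * ρ), by positivity, ?_, ?_⟩
  · intro u v huv
    have := (abs_lt.mp (hg (p u) (p v))).2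
    have := hclose u v huv
    linarith
  · intro u v huv
    have e1 := (abs_lt.mp (hg (p u) (p (sig v)))).1
    have e2 := hclose u v huv
    have e3 := hp2 v
    have e4 := dist_triangle (p v) (p u) (p (sig v))
    rw [dist_comm (p v) (p u)] at e4
    linarith

/-- First inequality: `R` is at least a third of the systole or `(2 - √2) π ρ`. -/
theorem ineqA (D : TorusData T Λ q c h) {ρ : ℝ} (hρ : 0 < ρ) (hX : IsRoundSphere ρ X)
    {g : X → T} {R : ℝ} (hg : ∀ x y, |dist (g x) (g y) - dist x y| < R) :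
    ‖c‖ ≤ 3 * R ∨ (2 - √2) * (ρ * π) ≤ R := by
  by_contra hcon
  push Not at hcon
  obtain ⟨h1, h2⟩ := hcon
  have s2 : √2 ^ 2 = 2 := Real.sq_sqrt (by norm_num)
  have s2p : 0 < √2 := by positivity
  have s2lt : √2 < 2 := by nlinarith
  have hπ := pi_pos
  obtain ⟨p, -⟩ := exists_polar hρ hX
  have hR : 0 < R := lt_of_le_of_lt (abs_nonneg _) (hg (p (0, 0)) (p (0, 0)))
  have h2' : R * (2 + √2) < 2 * (ρ * π) := by nlinarith
  set η := min ((‖c‖ - 3 * R) / 6) ((2 * (ρ * π) - R * (2 + √2)) / 16) with hη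
  have hη0 : 0 < η := lt_min (by linarith) (by linarith)
  have e1 : η ≤ (‖c‖ - 3 * R) / 6 := min_le_left _ _
  have e2 : η ≤ (2 * (ρ * π) - R * (2 + √2)) / 16 := min_le_right _ _
  obtain ⟨G, hG, ε, hε, g1, g2⟩ := setup hρ hX hg hη0
  have hm : 0 < ρ * π - η - R := by nlinarith
  refine coreA Λ D.surj D.hd D.hmin (r := R + η) (m := ρ * π - η - R) (by linarith) hm ?_ hG hε g1 g2
  have e3 : R + η < √2 * (ρ * π - η - R) := by nlinarith
  have e4 : (R + η) ^ 2 < (√2 * (ρ * π - η - R)) ^ 2 :=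
    pow_lt_pow_left₀ e3 (by positivity) (by norm_num)
  rw [mul_pow, s2] at e4
  exact e4

/-- Second inequality. -/
theorem ineqB (D : TorusData T Λ q c h) {ρ : ℝ} (hρ : 0 < ρ) (hX : IsRoundSphere ρ X)
    {g : X → T} {R : ℝ} (hg : ∀ x y, |dist (g x) (g y) - dist x y| < R) :
    h ≤ 3 * R ∨ ρ * π - R ≤ √((R / 2) ^ 2 + (‖c‖ / 2) ^ 2) := by
  by_contra hcon
  push Not at hcon
  obtain ⟨h1, h2⟩ := hcon
  obtain ⟨p, -⟩ := exists_polar hρ hX
  have hR : 0 < R := lt_of_le_of_lt (abs_nonneg _) (hg (p (0, 0)) (p (0, 0)))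
  set s := √((R / 2) ^ 2 + (‖c‖ / 2) ^ 2) with hs
  set η := min ((h - 3 * R) / 6) ((ρ * π - R - s) / 4) with hη
  have hη0 : 0 < η := lt_min (by linarith) (by linarith)
  have e1 : η ≤ (h - 3 * R) / 6 := min_le_left _ _
  have e2 : η ≤ (ρ * π - R - s) / 4 := min_le_right _ _
  obtain ⟨G, hG, ε, hε, g1, g2⟩ := setup hρ hX hg hη0
  have h5 := coreB Λ D.surj D.hd (hgt c) (hgt_le D.c0) D.hφΛ D.hφ2 D.hh.le
    (r := R + η) (by linarith) hG hε g1 g2
  have h6 : √(((R + η) / 2) ^ 2 + (‖c‖ / 2) ^ 2) ≤ s + η := by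
    have hs0 : 0 ≤ s := Real.sqrt_nonneg _
    have hs1 : s ^ 2 = (R / 2) ^ 2 + (‖c‖ / 2) ^ 2 := Real.sq_sqrt (by positivity)
    have hs2 : R / 2 ≤ s := by
      apply Real.le_sqrt_of_sq_le
      nlinarith [sq_nonneg (‖c‖ / 2)]
    apply Real.sqrt_le_iff.mpr
    refine ⟨by positivity, ?_⟩
    nlinarith
  linarith

/-- A unit vector orthogonal to `c`. -/
theorem exists_unit {c : E2} (hc : c ≠ 0) :
    ∃ e : E2, ‖e‖ = 1 ∧ ∀ t : ℝ, hgt c (t • e) = t := by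
  have h1 : 0 < ‖c‖ := norm_pos_iff.mpr hc
  have h2 := norm_sq_E2 c
  refine ⟨!₂[-(c 1) / ‖c‖, c 0 / ‖c‖], ?_, ?_⟩
  · have h : ‖(!₂[-(c 1) / ‖c‖, c 0 / ‖c‖] : E2)‖ ^ 2 = 1 := by
      rw [norm_sq_E2]
      simp only [Matrix.cons_val_zero, Matrix.cons_val_one]
      field_simp
      linarith
    have h3 := norm_nonneg (!₂[-(c 1) / ‖c‖, c 0 / ‖c‖] : E2)
    nlinarith
  · intro t
    rw [hgt_apply]
    simp
    field_simp
    rw [h2]; ring

/-- Third inequality. -/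
theorem ineqC [CompactSpace X] [Nonempty X] (D : TorusData T Λ q c h) (hSC : CoarseSC X)
    (hGeo : IsGeod X) {f : T → X} {g : X → T} {R : ℝ}
    (hg : ∀ x y, |dist (g x) (g y) - dist x y| < R)
    (hf : ∀ s t, |dist (f s) (f t) - dist s t| < R)
    (hfg : ∀ x t, |dist x (f t) - dist (g x) t| < R) : h ≤ 4 * R := by
  by_contra hcon
  push Not at hcon
  obtain ⟨e, he, hφe⟩ := exists_unit D.c0
  exact coreC hSC hGeo Λ D.surj D.hd (hgt c) (hgt_le D.c0) he hφe D.hh D.hφΛ hg hf hfg hcon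

end MPf10cd3
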