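import Pool.Agent.Lib.MP_f10cd3_gt.Antipodal

/-! Lifting coarse maps from the sphere through a lattice quotient, and the two cores. -/

namespace MPf10cd3

open Real

/-- Coarse lifting. -/
theorem exists_lift {T V : Type*} [NormedAddCommGroup V] (Λ : AddSubgroup V) (l : T → V)
    {r s : ℝ} (hs : ∀ x ∈ Λ, x ≠ 0 → s ≤ ‖x‖) (h3 : 3 * r ≤ s) {G : ℝ × ℝ → T} (hG : Good G)
    {ε : ℝ} (hε : 0 < ε)
    (hloc : ∀ u v, dist u v < ε → ∃ w : V, ‖w‖ < r ∧ l (G v) - l (G u) - w ∈ Λ) :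
    ∃ f : ℝ × ℝ → V, Good f ∧ (∀ u v, dist u v < ε / 2 → ‖f v - f u‖ < r) ∧
      ∀ u v, (f v - f u) - (l (G v) - l (G u)) ∈ Λ := by
  classical
  let D : T → T → V := fun a b =>
    if h : ∃ w : V, ‖w‖ < r ∧ l b - l a - w ∈ Λ then Classical.choose h else 0
  have hD : ∀ u v, dist u v < ε → ‖D (G u) (G v)‖ < r ∧
      l (G v) - l (G u) - D (G u) (G v) ∈ Λ := by
    intro u v huv
    have h := hloc u v huv
    have : D (G u) (G v) = Classical.choose h := by simp only [D]; rw [dif_pos h]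
    rw [this]
    exact Classical.choose_spec h
  have hc : IsCoc (fun u v => D (G u) (G v)) ε := by
    intro u v w huv hvw huw
    obtain ⟨a1, b1⟩ := hD u v huv
    obtain ⟨a2, b2⟩ := hD v w hvw
    obtain ⟨a3, b3⟩ := hD u w huw
    have hmem : D (G u) (G v) + D (G v) (G w) - D (G u) (G w) ∈ Λ := by
      have := Λ.sub_mem b3 (Λ.add_mem b1 b2)
      have e : D (G u) (G v) + D (G v) (G w) - D (G u) (G w) =
        l (G w) - l (G u) - D (G u) (G w) -
          (l (G v) - l (G u) - D (G u) (G v) + (l (G w) - l (G v) - D (G v) (G w))) := by abel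
      rw [e]; exact this
    by_contra hne
    have hne' : D (G u) (G v) + D (G v) (G w) - D (G u) (G w) ≠ 0 := sub_ne_zero.mpr hne
    have h1 := hs _ hmem hne'
    have h2 : ‖D (G u) (G v) + D (G v) (G w) - D (G u) (G w)‖ ≤
        ‖D (G u) (G v)‖ + ‖D (G v) (G w)‖ + ‖D (G u) (G w)‖ :=
      (norm_sub_le _ _).trans (add_le_add_left (norm_add_le _ _) _)
    linarith
  obtain ⟨f, hf, hfd⟩ := exists_good_potential hG hε hc
  refine ⟨f, hf, ?_, ?_⟩
  · intro u v huv
    rw [hfd u v huv]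
    exact (hD u v (by linarith)).1
  · intro u v
    have hq := const_plane (half_pos hε)
      (f := fun u => (QuotientAddGroup.mk (f u - l (G u)) : V ⧸ Λ)) (fun u v huv => by
        rw [QuotientAddGroup.eq]
        have h1 := (hD u v (by linarith)).2
        have h2 := hfd u v huv
        rw [← h2] at h1
        have := Λ.neg_mem h1
        have e : -(f u - l (G u)) + (f v - l (G v)) = -(l (G v) - l (G u) - (f v - f u)) := by abel
        rw [e]; exact this) u v
    rw [QuotientAddGroup.eq] at hq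
    have e : (f v - f u) - (l (G v) - l (G u)) = -(f u - l (G u)) + (f v - l (G v)) := by abel
    rw [e]; exact hq

/-- Euclidean plane. -/
abbrev E2 := EuclideanSpace ℝ (Fin 2)

theorem infDist_le_of_sub_mem {V : Type*} [NormedAddCommGroup V] (Λ : AddSubgroup V) {x w : V}
    (h : x - w ∈ Λ) : Metric.infDist x (Λ : Set V) ≤ ‖w‖ := by
  have := Metric.infDist_le_dist_of_mem (x := x) (s := (Λ : Set V)) h
  rw [dist_eq_norm] at this
  simpa using this

theorem exists_of_infDist_lt {V : Type*} [NormedAddCommGroup V] (Λ : AddSubgroup V) {x : V} {r : ℝ}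
    (h : Metric.infDist x (Λ : Set V) < r) : ∃ w, ‖w‖ < r ∧ x - w ∈ Λ := by
  obtain ⟨y, hy, hd⟩ := (Metric.infDist_lt_iff ⟨0, Λ.zero_mem⟩).mp h
  refine ⟨x - y, by rwa [← dist_eq_norm], ?_⟩
  rw [sub_sub_cancel]; exact hy

/-- First core: if the systole is large, a coarse map from the sphere to the torus with antipodal
points far apart is impossible. -/
theorem coreA {T : Type*} [MetricSpace T] (Λ : AddSubgroup E2) {q : E2 → T}
    (hq : Function.Surjective q)
    (hd : ∀ u v, dist (q u) (q v) = Metric.infDist (u - v) (Λ : Set E2)) {s r m : ℝ}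
    (hs : ∀ x ∈ Λ, x ≠ 0 → s ≤ ‖x‖) (h3 : 3 * r ≤ s) (hm : 0 < m) (hrm : r ^ 2 < 2 * m ^ 2) {G : ℝ × ℝ → T} (hG : Good G)
    {ε : ℝ} (hε : 0 < ε) (h1 : ∀ u v, dist u v < ε → dist (G u) (G v) < r)
    (h2 : ∀ u v, dist u v < ε → m ≤ dist (G u) (G (sig v))) : False := by
  obtain ⟨l, hl⟩ := hq.hasRightInverse
  have hdl : ∀ a b, dist a b = Metric.infDist (l a - l b) (Λ : Set E2) := by
    intro a b; rw [← hd, hl, hl]
  obtain ⟨f, hf, hfr, hfΛ⟩ := exists_lift Λ l hs h3 hG hε (fun u v huv => by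
    apply exists_of_infDist_lt
    rw [← hdl, dist_comm]
    exact h1 u v huv)
  have hle : ∀ u v, dist (G u) (G v) ≤ ‖f u - f v‖ := by
    intro u v
    rw [hdl]
    apply infDist_le_of_sub_mem
    have := Λ.neg_mem (hfΛ v u)
    have e : l (G u) - l (G v) - (f u - f v) = -((f u - f v) - (l (G u) - l (G v))) := by abel
    rw [e]; exact this
  let κ : E2 ≃ₗᵢ[ℝ] ℂ := Complex.orthonormalBasisOneI.repr.symm
  apply borsuk_ulam_pair (half_pos hε) (a := fun u => κ (f u)) (r := r) (m := m)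
  · exact hf.map₂ hf (fun x _ => κ x)
  · exact hm
  · exact hrm
  · intro u v huv
    rw [← map_sub, κ.norm_map]
    exact hfr u v huv
  · intro u v huv
    rw [← map_sub, κ.norm_map]
    exact (h2 u v (by linarith)).trans (hle _ _)

/-- Second core: only one coordinate is lifted. -/
theorem coreB {T : Type*} [MetricSpace T] (Λ : AddSubgroup E2) {q : E2 → T}
    (hq : Function.Surjective q)
    (hd : ∀ u v, dist (q u) (q v) = Metric.infDist (u - v) (Λ : Set E2)) {s h r m : ℝ}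
    (φ : E2 →+ ℝ) (hφn : ∀ w, |φ w| ≤ ‖w‖) (hφΛ : ∀ x ∈ Λ, φ x ∈ AddSubgroup.zmultiples h)
    (hφ2 : ∀ (w : E2) (t : ℝ), φ w - t ∈ AddSubgroup.zmultiples h → ∃ x ∈ Λ,
      ‖w - x‖ ≤ √(t ^ 2 + (s / 2) ^ 2))
    (hh : 0 ≤ h) (h3 : 3 * r ≤ h) {G : ℝ × ℝ → T} (hG : Good G)
    {ε : ℝ} (hε : 0 < ε) (h1 : ∀ u v, dist u v < ε → dist (G u) (G v) < r)
    (h2 : ∀ u v, dist u v < ε → m ≤ dist (G u) (G (sig v))) :
    m ≤ √((r / 2) ^ 2 + (s / 2) ^ 2) := by
  obtain ⟨l, hl⟩ := hq.hasRightInverse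
  have hdl : ∀ a b, dist a b = Metric.infDist (l a - l b) (Λ : Set E2) := by
    intro a b; rw [← hd, hl, hl]
  have hr0 : 0 < r := lt_of_le_of_lt dist_nonneg (h1 (0, 0) (0, 0) (by simpa))
  have hsys : ∀ x ∈ AddSubgroup.zmultiples h, x ≠ 0 → h ≤ ‖x‖ := by
    intro x hx hx0
    obtain ⟨k, hk⟩ := AddSubgroup.mem_zmultiples_iff.mp hx
    have hk0 : k ≠ 0 := by
      rintro rfl
      apply hx0; rw [← hk]; simp
    have hk1 : (1 : ℝ) ≤ |(k : ℝ)| := by
      have := Int.one_le_abs hk0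
      exact_mod_cast this
    rw [← hk, zsmul_eq_mul, norm_mul, Real.norm_eq_abs, Real.norm_eq_abs, abs_of_nonneg hh]
    nlinarith
  obtain ⟨f, hf, hfr, hfΛ⟩ := exists_lift (AddSubgroup.zmultiples h) (fun t => φ (l t)) hsys h3
    hG hε (fun u v huv => by
      obtain ⟨w, hw, hwΛ⟩ := exists_of_infDist_lt Λ (x := l (G v) - l (G u)) (r := r)
        (by rw [← hdl, dist_comm]; exact h1 u v huv)
      refine ⟨φ w, lt_of_le_of_lt (hφn w) hw, ?_⟩
      have := hφΛ _ hwΛ
      simpa [map_sub] using this)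
  obtain ⟨u, v, huv, hu, hv⟩ := borsuk_ulam_one (half_pos hε) hf.sig_sig
  have b1 : |f v - f u| < r := hfr u v huv
  have b2 : |f (sig v) - f (sig u)| < r := hfr _ _ (by rwa [dist_sig])
  have main : ∀ x y, dist x y < ε → |f x - f (sig y)| ≤ r / 2 → m ≤ √((r / 2) ^ 2 + (s / 2) ^ 2) := by
    intro x y hxy hle
    refine (h2 x y hxy).trans ?_
    rw [hdl]
    have hmem := hfΛ (sig y) x
    obtain ⟨z, hz, hzn⟩ := hφ2 (l (G x) - l (G (sig y))) (f x - f (sig y)) (by
      have := (AddSubgroup.zmultiples h).neg_mem hmem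
      rw [map_sub]
      have e : φ (l (G x)) - φ (l (G (sig y))) - (f x - f (sig y)) =
        -(f x - f (sig y) - (φ (l (G x)) - φ (l (G (sig y))))) := by ring
      rw [e]; exact this)
    have h5 : Metric.infDist (l (G x) - l (G (sig y))) (Λ : Set E2) ≤
        ‖l (G x) - l (G (sig y)) - z‖ := by
      have := Metric.infDist_le_dist_of_mem (x := l (G x) - l (G (sig y))) (s := (Λ : Set E2)) hz
      rwa [dist_eq_norm] at this
    refine h5.trans (hzn.trans (Real.sqrt_le_sqrt ?_))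
    have : (f x - f (sig y)) ^ 2 ≤ (r / 2) ^ 2 := by
      rw [← sq_abs (f x - f (sig y))]
      exact pow_le_pow_left₀ (abs_nonneg _) hle 2
    linarith
  rw [abs_lt] at b1 b2
  by_cases c1 : |f u - f (sig u)| ≤ r / 2
  · exact main u u (by simpa) c1
  by_cases c2 : |f v - f (sig v)| ≤ r / 2
  · exact main v v (by simpa) c2
  by_cases c3 : |f u - f (sig v)| ≤ r / 2
  · exact main u v (by linarith) c3
  exfalso
  push Not at c1 c2 c3
  rw [lt_abs] at c1 c2 c3
  rcases c1 with c1 | c1 <;> rcases c2 with c2 | c2 <;> rcases c3 with c3 | c3 <;> linarith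

end MPf10cd3
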