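import Pool.Agent.Lib.MP_f10cd3_gt.CoreC

/-! Simply connected geodesic spaces are coarsely simply connected. -/

namespace MPf10cd3

open unitInterval

variable {M : Type*} [MetricSpace M]

/-- `v` is the integral of the coarse cocycle `c` along `γ`. -/
def HasInt (c : M → M → ℝ) (γ : ℝ → M) (v : ℝ) : Prop :=
  ∃ f : ℝ → ℝ, ∃ η > 0, (∀ s t, dist s t < η → f t - f s = c (γ s) (γ t)) ∧ f 1 - f 0 = v

omit [MetricSpace M] in
theorem HasInt.unique {c : M → M → ℝ} {γ : ℝ → M} {v w : ℝ} (h1 : HasInt c γ v)
    (h2 : HasInt c γ w) : v = w := by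
  obtain ⟨f, η, hη, hf, rfl⟩ := h1
  obtain ⟨g, η', hη', hg, rfl⟩ := h2
  have := const_line (lt_min hη hη') (f := fun t => f t - g t) (fun s t hst => by
    have e1 := hf s t (lt_of_lt_of_le hst (min_le_left _ _))
    have e2 := hg s t (lt_of_lt_of_le hst (min_le_right _ _))
    show f s - g s = f t - g t
    linarith) 0 1
  linarith

theorem uc_comp_proj {n : Type*} [MetricSpace n] {N : Type*} [MetricSpace N] [CompactSpace N]
    {F : N → M} (hF : Continuous F) {κ : n → N} (hκ : UniformContinuous κ) {ε : ℝ} (hε : 0 < ε) :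
    ∃ η > 0, ∀ s t : n, dist s t < η → dist (F (κ s)) (F (κ t)) < ε := by
  have h1 : UniformContinuous F := CompactSpace.uniformContinuous_of_continuous hF
  have h2 := h1.comp hκ
  rw [Metric.uniformContinuous_iff] at h2
  obtain ⟨η, hη, h⟩ := h2 ε hε
  exact ⟨η, hη, fun s t hst => h hst⟩

theorem uc_projIcc : UniformContinuous (fun t : ℝ => Set.projIcc (0 : ℝ) 1 zero_le_one t) := by
  apply LipschitzWith.uniformContinuous (K := 1)
  exact LipschitzWith.projIcc _

/-- The property that `c` is a cocycle at scale `ε`. -/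
def CocM (c : M → M → ℝ) (ε : ℝ) : Prop :=
  ∀ x y z, dist x y < ε → dist y z < ε → dist x z < ε → c x y + c y z = c x z

theorem CocM.comp {c : M → M → ℝ} {ε : ℝ} (hc : CocM c ε) {W : Type*} [NormedAddCommGroup W]
    {γ : W → M} {η : ℝ} (h : ∀ s t, dist s t < η → dist (γ s) (γ t) < ε) :
    IsCoc (fun s t => c (γ s) (γ t)) η :=
  fun s t u h1 h2 h3 => hc _ _ _ (h s t h1) (h t u h2) (h s u h3)

theorem exists_int {c : M → M → ℝ} {ε : ℝ} (hε : 0 < ε) (hc : CocM c ε) {x y : M} (p : Path x y) :
    ∃ v, HasInt c p.extend v := by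
  obtain ⟨η, hη, h⟩ := uc_comp_proj p.continuous uc_projIcc hε
  have h' : ∀ s t, dist s t < η → dist (p.extend s) (p.extend t) < ε := h
  obtain ⟨f, hf⟩ := exists_potential (hc.comp h') hη
  exact ⟨_, f, η / 2, half_pos hη, hf, rfl⟩

theorem int_homotopic {c : M → M → ℝ} {ε : ℝ} (hε : 0 < ε) (hc : CocM c ε) {x y : M}
    {p q : Path x y} (hpq : p.Homotopic q) : ∃ v, HasInt c p.extend v ∧ HasInt c q.extend v := by
  obtain ⟨F⟩ := hpq
  let P : ℝ × ℝ → I × I := fun u => (Set.projIcc 0 1 zero_le_one u.1, Set.projIcc 0 1 zero_le_one u.2)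
  have hP : UniformContinuous P :=
    (uc_projIcc.comp uniformContinuous_fst).prodMk (uc_projIcc.comp uniformContinuous_snd)
  obtain ⟨η, hη, h⟩ := uc_comp_proj F.continuous hP hε
  obtain ⟨f, hf⟩ := exists_potential (hc.comp (γ := fun u => F (P u)) h) hη
  have hη2 := half_pos hη
  have hself : ∀ z, c z z = 0 := by
    intro z
    have := hc z z z (by simpa) (by simpa) (by simpa)
    linarith
  have e0 : ∀ t, F (P (0, t)) = p.extend t := by
    intro t
    have : P (0, t) = (0, Set.projIcc 0 1 zero_le_one t) := by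
      simp [P]
    rw [this]
    exact F.apply_zero _
  have e1 : ∀ t, F (P (1, t)) = q.extend t := by
    intro t
    have : P (1, t) = (1, Set.projIcc 0 1 zero_le_one t) := by
      simp [P]
    rw [this]
    exact F.apply_one _
  have e2 : ∀ s, F (P (s, 0)) = x := by
    intro s
    have : P (s, 0) = (Set.projIcc 0 1 zero_le_one s, 0) := by
      simp [P]
    rw [this]
    exact F.source _
  have e3 : ∀ s, F (P (s, 1)) = y := by
    intro s
    have : P (s, 1) = (Set.projIcc 0 1 zero_le_one s, 1) := by
      simp [P]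
    rw [this]
    exact F.target _
  have c0 : f (0, 0) = f (1, 0) := by
    have := const_line hη2 (f := fun s => f (s, 0)) (fun s t hst => by
      have := hf (s, 0) (t, 0) (by simpa [Prod.dist_eq] using hst)
      rw [e2, e2, hself] at this
      show f (s, 0) = f (t, 0)
      linarith) 0 1
    exact this
  have c1 : f (0, 1) = f (1, 1) := by
    have := const_line hη2 (f := fun s => f (s, 1)) (fun s t hst => by
      have := hf (s, 1) (t, 1) (by simpa [Prod.dist_eq] using hst)
      rw [e3, e3, hself] at this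
      show f (s, 1) = f (t, 1)
      linarith) 0 1
    exact this
  refine ⟨f (0, 1) - f (0, 0), ⟨fun t => f (0, t), η / 2, hη2, ?_, rfl⟩,
    ⟨fun t => f (1, t), η / 2, hη2, ?_, ?_⟩⟩
  · intro s t hst
    have := hf (0, s) (0, t) (by simpa [Prod.dist_eq] using hst)
    rw [e0, e0] at this
    exact this
  · intro s t hst
    have := hf (1, s) (1, t) (by simpa [Prod.dist_eq] using hst)
    rw [e1, e1] at this
    exact this
  · show f (1, 1) - f (1, 0) = f (0, 1) - f (0, 0)
    rw [c0, c1]

theorem int_trans {c : M → M → ℝ} {ε : ℝ} (hε : 0 < ε) (hc : CocM c ε) {x y z : M}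
    {p : Path x y} {q : Path y z} {v w : ℝ} (hv : HasInt c p.extend v)
    (hw : HasInt c q.extend w) : HasInt c (p.trans q).extend (v + w) := by
  obtain ⟨f, η, hη, hf, rfl⟩ := hv
  obtain ⟨g, η', hη', hg, rfl⟩ := hw
  obtain ⟨η'', hη'', h⟩ := uc_comp_proj (p.trans q).continuous uc_projIcc hε
  have h' : ∀ s t, dist s t < η'' → dist ((p.trans q).extend s) ((p.trans q).extend t) < ε := h
  have hl : ∀ t : ℝ, t ≤ 1 / 2 → (p.trans q).extend t = p.extend (2 * t) :=
    fun t ht => Path.extend_trans_of_le_half _ _ ht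
  have hr : ∀ t : ℝ, 1 / 2 ≤ t → (p.trans q).extend t = q.extend (2 * t - 1) :=
    fun t ht => Path.extend_trans_of_half_le _ _ ht
  let F : ℝ → ℝ := fun t => if t ≤ 1 / 2 then f (2 * t) - f 1 else g (2 * t - 1) - g 0
  set δ := min (min (η / 2) (η' / 2)) η'' with hδ
  have hδ0 : 0 < δ := lt_min (lt_min (half_pos hη) (half_pos hη')) hη''
  have d1 : δ ≤ η / 2 := (min_le_left _ _).trans (min_le_left _ _)
  have d2 : δ ≤ η' / 2 := (min_le_left _ _).trans (min_le_right _ _)
  have d3 : δ ≤ η'' := min_le_right _ _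
  have hself : ∀ z, c z z = 0 := by
    intro z
    have := hc z z z (by simpa) (by simpa) (by simpa)
    linarith
  have hanti : ∀ x y, dist x y < ε → c y x = - c x y := by
    intro x y hxy
    have := hc x y x hxy (by rwa [dist_comm]) (by simpa)
    rw [hself] at this
    linarith
  -- ordered version
  have key : ∀ s t : ℝ, s ≤ t → dist s t < δ → F t - F s =
      c ((p.trans q).extend s) ((p.trans q).extend t) := by
    intro s t hle hst
    have hst' : dist s t < η'' := lt_of_lt_of_le hst d3
    rw [Real.dist_eq] at hst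
    rcases le_or_gt t (1 / 2) with ht | ht
    · have hs : s ≤ 1 / 2 := hle.trans ht
      simp only [F, if_pos ht, if_pos hs]
      rw [hl s hs, hl t ht, ← hf (2 * s) (2 * t) (by
        rw [Real.dist_eq, ← mul_sub, abs_mul, abs_two]; linarith)]
      ring
    · rcases le_or_gt s (1 / 2) with hs | hs
      · simp only [F, if_neg (not_le.mpr ht), if_pos hs]
        have hst2 : |s - t| = t - s := by rw [abs_sub_comm, abs_of_nonneg (by linarith)]
        rw [hst2] at hst
        have a1 := hf (2 * s) 1 (by
          rw [Real.dist_eq, abs_sub_comm, abs_of_nonneg (by linarith)]; linarith)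
        have a2 := hg 0 (2 * t - 1) (by
          rw [Real.dist_eq, zero_sub, abs_neg, abs_of_nonneg (by linarith)]; linarith)
        have a3 : p.extend 1 = y := p.extend_one
        have a4 : q.extend 0 = y := q.extend_zero
        rw [a3] at a1
        rw [a4] at a2
        have m1 : (p.trans q).extend (1 / 2) = y := by
          rw [hl (1 / 2) le_rfl]; norm_num
        have b1 := h' s (1 / 2) (by
          rw [Real.dist_eq, abs_sub_comm, abs_of_nonneg (by linarith)]; linarith)
        have b2 := h' (1 / 2) t (by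
          rw [Real.dist_eq, abs_sub_comm, abs_of_nonneg (by linarith)]; linarith)
        have b3 := h' s t hst'
        rw [m1] at b1 b2
        have b4 := hc _ _ _ b1 b2 b3
        rw [hl s hs, hr t ht.le] at b4 ⊢
        linarith
      · simp only [F, if_neg (not_le.mpr ht), if_neg (not_le.mpr hs)]
        rw [hr s hs.le, hr t ht.le, ← hg (2 * s - 1) (2 * t - 1) (by
          rw [Real.dist_eq, show 2 * s - 1 - (2 * t - 1) = 2 * (s - t) by ring, abs_mul, abs_two]
          linarith)]
        ring
  refine ⟨F, δ, hδ0, ?_, ?_⟩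
  · intro s t hst
    rcases le_total s t with hle | hle
    · exact key s t hle hst
    · have e1 := key t s hle (by rwa [dist_comm])
      have e2 := hanti ((p.trans q).extend t) ((p.trans q).extend s)
        (h' t s (by rw [dist_comm]; linarith))
      rw [e2, ← e1]; ring
  · simp only [F]
    norm_num
    ring

theorem coarseSC_of_simplyConnected [SimplyConnectedSpace M] (hG : IsGeod M) : CoarseSC M := by
  intro c ε hε hc
  have hc' : CocM c ε := hc
  have hself : ∀ z, c z z = 0 := by
    intro z
    have := hc z z z (by simpa) (by simpa) (by simpa)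
    linarith
  obtain ⟨x0⟩ : Nonempty M := inferInstance
  let P : ∀ x : M, Path x0 x := fun x => (PathConnectedSpace.joined x0 x).somePath
  choose F hF using fun x : M => exists_int hε hc' (P x)
  refine ⟨F, ε, hε, fun x y hxy => ?_⟩
  obtain ⟨γ, h0, h1, hγ⟩ := hG x y
  have hcont : Continuous (fun t : I => γ t) := by
    rw [Metric.continuous_iff]
    intro t δ hδ
    refine ⟨δ / (dist x y + 1), by positivity, fun s hst => ?_⟩
    rw [hγ s s.2 t t.2]
    have e1 : dist s t = |(s : ℝ) - t| := by rw [Subtype.dist_eq, Real.dist_eq]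
    rw [e1, lt_div_iff₀ (by positivity)] at hst
    have := abs_nonneg ((s : ℝ) - t)
    nlinarith [dist_nonneg (x := x) (y := y)]
  let β : Path x y := ⟨⟨fun t : I => γ t, hcont⟩, by simp [h0], by simp [h1]⟩
  have hβ : ∀ s t : ℝ, dist (β.extend s) (β.extend t) ≤ dist x y := by
    intro s t
    have e : ∀ r : ℝ, β.extend r = γ (Set.projIcc (0 : ℝ) 1 zero_le_one r : I) := fun r => rfl
    rw [e, e, hγ _ (Subtype.mem _) _ (Subtype.mem _)]
    have h2 : |((Set.projIcc (0 : ℝ) 1 zero_le_one s : I) : ℝ) -
        (Set.projIcc (0 : ℝ) 1 zero_le_one t : I)| ≤ 1 := by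
      have a1 := (Set.projIcc (0 : ℝ) 1 zero_le_one s).2
      have a2 := (Set.projIcc (0 : ℝ) 1 zero_le_one t).2
      rw [abs_le]
      constructor <;> linarith [a1.1, a1.2, a2.1, a2.2]
    nlinarith [dist_nonneg (x := x) (y := y)]
  have hβint : HasInt c β.extend (c x y) := by
    refine ⟨fun t => c x (β.extend t), 1, one_pos, ?_, ?_⟩
    · intro s t _
      have e1 : dist x (β.extend s) < ε := by
        have := hβ 0 s
        rw [β.extend_zero] at this; linarith
      have e2 : dist x (β.extend t) < ε := by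
        have := hβ 0 t
        rw [β.extend_zero] at this; linarith
      have e3 : dist (β.extend s) (β.extend t) < ε := lt_of_le_of_lt (hβ s t) hxy
      have := hc _ _ _ e1 e3 e2
      show c x (β.extend t) - c x (β.extend s) = _
      linarith
    · show c x (β.extend 1) - c x (β.extend 0) = c x y
      rw [β.extend_one, β.extend_zero, hself, sub_zero]
  have h3 := int_trans hε hc' (hF x) hβint
  obtain ⟨v, hv1, hv2⟩ := int_homotopic hε hc'
    (SimplyConnectedSpace.paths_homotopic ((P x).trans β) (P y))
  have h4 := h3.unique hv1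
  have h5 := (hF y).unique hv2
  linarith

end MPf10cd3
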