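import Pool.Agent.Lib.MP_f10cd3_gt.Antipodal

/-! Polar coordinates on the round sphere. -/

namespace MPf10cd3

open Real

/-- The point of the unit sphere with polar angle `φ` and longitude `θ`. -/
noncomputable def sph (u : ℝ × ℝ) : EuclideanSpace ℝ (Fin 3) :=
  !₂[sin u.1 * cos u.2, sin u.1 * sin u.2, cos u.1]

theorem inner_sph (u v : ℝ × ℝ) : inner ℝ (sph u) (sph v) =
    sin u.1 * sin v.1 * cos (u.2 - v.2) + cos u.1 * cos v.1 := by
  simp only [sph, PiLp.inner_apply, Fin.sum_univ_three, cos_sub]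
  simp
  ring

theorem norm_sph (u : ℝ × ℝ) : ‖sph u‖ = 1 := by
  have h : ‖sph u‖ ^ 2 = 1 := by
    rw [← real_inner_self_eq_norm_sq, inner_sph]
    simp only [sub_self, cos_zero]
    nlinarith [sin_sq_add_cos_sq u.1]
  have h2 := norm_nonneg (sph u)
  nlinarith

theorem arccos_le_abs {x t : ℝ} (h : cos t ≤ x) : arccos x ≤ |t| := by
  by_cases ht : |t| ≤ π
  · calc arccos x ≤ arccos (cos t) := arccos_le_arccos h
      _ = arccos (cos |t|) := by rw [cos_abs]
      _ = |t| := arccos_cos (abs_nonneg t) ht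
  · push Not at ht
    exact (arccos_le_pi x).trans ht.le

theorem angle_sph_fst (x x' y : ℝ) :
    InnerProductGeometry.angle (sph (x, y)) (sph (x', y)) ≤ |x - x'| := by
  unfold InnerProductGeometry.angle
  rw [norm_sph, norm_sph]
  apply arccos_le_abs
  rw [inner_sph, cos_sub]
  simp only [sub_self, cos_zero]
  apply le_of_eq; ring

theorem angle_sph_snd (x y y' : ℝ) :
    InnerProductGeometry.angle (sph (x, y)) (sph (x, y')) ≤ |y - y'| := by
  unfold InnerProductGeometry.angle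
  rw [norm_sph, norm_sph]
  apply arccos_le_abs
  rw [inner_sph]
  simp only [mul_one, div_one]
  nlinarith [sin_sq_add_cos_sq x, cos_le_one (y - y'), sq_nonneg (cos x),
    mul_nonneg (sq_nonneg (cos x)) (sub_nonneg.mpr (cos_le_one (y - y')))]

theorem sph_tau (u : ℝ × ℝ) : sph (tau u) = sph u := by
  simp [sph, tau, sin_add, cos_add]

theorem sph_tau' (u : ℝ × ℝ) : sph (tau' u) = sph u := by
  simp [sph, tau', sin_add, cos_add, sin_sub, cos_sub]

theorem sph_sig (u : ℝ × ℝ) : sph (sig u) = - sph u := by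
  ext i
  fin_cases i <;> simp [sph, sig, sin_add, cos_add]

theorem sph_zero (a : ℝ) : sph (0, a) = !₂[0, 0, 1] := by
  simp [sph]

theorem sph_pi (a : ℝ) : sph (π, a) = !₂[0, 0, -1] := by
  simp [sph]

/-- Polar coordinates on a round sphere. -/
theorem exists_polar {ρ : ℝ} (hρ : 0 < ρ) {X : Type*} [MetricSpace X] (hX : IsRoundSphere ρ X) :
    ∃ p : ℝ × ℝ → X, Good p ∧ (∀ u v, dist (p u) (p v) ≤ 2 * ρ * dist u v) ∧
      (∀ u, dist (p u) (p (sig u)) = ρ * π) ∧ (∀ x y : X, dist x y ≤ ρ * π) := by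
  obtain ⟨e, he⟩ := hX
  have hmem : ∀ u, sph u ∈ Metric.sphere (0 : EuclideanSpace ℝ (Fin 3)) 1 := fun u => by
    simp [norm_sph]
  refine ⟨fun u => e.symm ⟨sph u, hmem u⟩, ⟨?_, ?_, ?_, ?_⟩, ?_, ?_, ?_⟩
  · intro u; simp only [sph_tau]
  · intro u; simp only [sph_tau']
  · intro a b; simp only [sph_zero]
  · intro a b; simp only [sph_pi]
  · intro u v
    have h1 : dist (e.symm ⟨sph u, hmem u⟩) (e.symm ⟨sph (v.1, u.2), hmem _⟩) ≤ ρ * |u.1 - v.1| := by
      rw [he]
      simp only [Equiv.apply_symm_apply]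
      exact mul_le_mul_of_nonneg_left (angle_sph_fst _ _ _) hρ.le
    have h2 : dist (e.symm ⟨sph (v.1, u.2), hmem _⟩) (e.symm ⟨sph v, hmem v⟩) ≤ ρ * |u.2 - v.2| := by
      rw [he]
      simp only [Equiv.apply_symm_apply]
      exact mul_le_mul_of_nonneg_left (angle_sph_snd _ _ _) hρ.le
    have h3 : |u.1 - v.1| ≤ dist u v := by
      rw [Prod.dist_eq, ← Real.dist_eq]; exact le_max_left _ _
    have h4 : |u.2 - v.2| ≤ dist u v := by
      rw [Prod.dist_eq, ← Real.dist_eq]; exact le_max_right _ _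
    have h5 := dist_triangle (e.symm ⟨sph u, hmem u⟩) (e.symm ⟨sph (v.1, u.2), hmem _⟩)
      (e.symm ⟨sph v, hmem v⟩)
    nlinarith [mul_le_mul_of_nonneg_left h3 hρ.le, mul_le_mul_of_nonneg_left h4 hρ.le]
  · intro u
    rw [he]
    simp only [Equiv.apply_symm_apply, sph_sig]
    rw [InnerProductGeometry.angle_self_neg_of_nonzero]
    intro h
    have := norm_sph u
    rw [h, norm_zero] at this
    norm_num at this
  · intro x y
    rw [he]
    exact mul_le_mul_of_nonneg_left (InnerProductGeometry.angle_le_pi _ _) hρ.le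

end MPf10cd3
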