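import Pool.Agent.Lib.MP_f10cd3_gt.CoreC
import Pool.Agent.Lib.MP_f10cd3_gt.Sphere

/-! The round sphere is geodesic and coarsely simply connected. -/

namespace MPf10cd3

open Real

theorem sph_surj {a : EuclideanSpace ℝ (Fin 3)} (ha : ‖a‖ = 1) :
    ∃ u : ℝ × ℝ, sph u = a ∧ 0 ≤ u.1 ∧ u.1 ≤ π ∧ -π < u.2 ∧ u.2 ≤ π := by
  have h1 : a 0 ^ 2 + a 1 ^ 2 + a 2 ^ 2 = 1 := by
    have := EuclideanSpace.norm_sq_eq a
    rw [ha, Fin.sum_univ_three] at this
    simp only [Real.norm_eq_abs, sq_abs] at this
    linarith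
  set z : ℂ := ⟨a 0, a 1⟩ with hz
  have hn : ‖z‖ = √(1 - a 2 ^ 2) := by
    rw [Complex.norm_def, Complex.normSq_apply]
    congr 1
    simp only [hz]
    nlinarith
  have h2 : a 2 ≤ 1 := by nlinarith [sq_nonneg (a 0), sq_nonneg (a 1)]
  have h3 : -1 ≤ a 2 := by nlinarith [sq_nonneg (a 0), sq_nonneg (a 1)]
  refine ⟨(arccos (a 2), z.arg), ?_, arccos_nonneg _, arccos_le_pi _, Complex.neg_pi_lt_arg z,
    Complex.arg_le_pi z⟩
  have e1 : ‖z‖ * cos z.arg = a 0 := by
    have := Complex.norm_mul_cos_arg z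
    simpa [hz] using this
  have e2 : ‖z‖ * sin z.arg = a 1 := by
    have := Complex.norm_mul_sin_arg z
    simpa [hz] using this
  ext i
  fin_cases i
  · simp only [sph, sin_arccos]
    rw [← hn]; simpa using e1
  · simp only [sph, sin_arccos]
    rw [← hn]; simpa using e2
  · simp only [sph]
    simpa using cos_arccos h3 h2

theorem exists_frame {a b : EuclideanSpace ℝ (Fin 3)} (ha : ‖a‖ = 1) (hb : ‖b‖ = 1) :
    ∃ w : EuclideanSpace ℝ (Fin 3), ‖w‖ = 1 ∧ inner ℝ a w = 0 ∧
      b = cos (InnerProductGeometry.angle a b) • a + sin (InnerProductGeometry.angle a b) • w := by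
  set α := InnerProductGeometry.angle a b with hα
  have hab : inner ℝ a b = cos α := by
    have := InnerProductGeometry.cos_angle_mul_norm_mul_norm a b
    rw [ha, hb] at this
    rw [← this, mul_one, mul_one]
  by_cases hs : sin α = 0
  · obtain ⟨u, hu, -⟩ := sph_surj ha
    refine ⟨!₂[cos u.1 * cos u.2, cos u.1 * sin u.2, -sin u.1], ?_, ?_, ?_⟩
    · have h : ‖(!₂[cos u.1 * cos u.2, cos u.1 * sin u.2, -sin u.1] : EuclideanSpace ℝ (Fin 3))‖ ^ 2
          = 1 := by
        rw [EuclideanSpace.norm_sq_eq, Fin.sum_univ_three]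
        simp [mul_pow, sq_abs]
        have e1 := sin_sq_add_cos_sq u.1
        have e2 := sin_sq_add_cos_sq u.2
        linear_combination e1 + cos u.1 ^ 2 * e2
      have h2 := norm_nonneg (!₂[cos u.1 * cos u.2, cos u.1 * sin u.2, -sin u.1] :
        EuclideanSpace ℝ (Fin 3))
      nlinarith
    · rw [← hu]
      simp only [sph, PiLp.inner_apply, Fin.sum_univ_three]
      simp
      have e2 := sin_sq_add_cos_sq u.2
      linear_combination (sin u.1 * cos u.1) * e2
    · rw [hs, zero_smul, add_zero]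
      have h : ‖b - cos α • a‖ ^ 2 = 0 := by
        rw [norm_sub_sq_real, hb, norm_smul, ha, inner_smul_right, real_inner_comm, hab,
          mul_one, Real.norm_eq_abs, sq_abs]
        nlinarith [sin_sq_add_cos_sq α]
      have h2 : ‖b - cos α • a‖ = 0 := by simpa using h
      rw [norm_eq_zero, sub_eq_zero] at h2
      exact h2
  · refine ⟨(sin α)⁻¹ • (b - cos α • a), ?_, ?_, ?_⟩
    · have h : ‖b - cos α • a‖ ^ 2 = sin α ^ 2 := by
        rw [norm_sub_sq_real, hb, norm_smul, ha, inner_smul_right, real_inner_comm, hab,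
          mul_one, Real.norm_eq_abs, sq_abs]
        nlinarith [sin_sq_add_cos_sq α]
      have h3 : ‖b - cos α • a‖ = |sin α| := by
        rw [← abs_norm, ← sq_eq_sq_iff_abs_eq_abs]; exact h
      rw [norm_smul, h3, norm_inv, Real.norm_eq_abs]
      exact inv_mul_cancel₀ (abs_ne_zero.mpr hs)
    · rw [inner_smul_right, inner_sub_right, inner_smul_right, hab,
        real_inner_self_eq_norm_sq, ha]
      ring
    · rw [smul_smul, mul_inv_cancel₀ hs, one_smul]
      abel

theorem isGeod_of_isRoundSphere {ρ : ℝ} {X : Type*} [MetricSpace X]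
    (hX : IsRoundSphere ρ X) : IsGeod X := by
  obtain ⟨e, he⟩ := hX
  intro x y
  have hx : ‖(e x : EuclideanSpace ℝ (Fin 3))‖ = 1 := by simpa using (e x).2
  have hy : ‖(e y : EuclideanSpace ℝ (Fin 3))‖ = 1 := by simpa using (e y).2
  obtain ⟨w, hw, haw, hb⟩ := exists_frame hx hy
  set a : EuclideanSpace ℝ (Fin 3) := (e x : EuclideanSpace ℝ (Fin 3)) with ha
  set b : EuclideanSpace ℝ (Fin 3) := (e y : EuclideanSpace ℝ (Fin 3)) with hb'
  set α := InnerProductGeometry.angle a b with hα
  have hinner : ∀ s t : ℝ, inner ℝ (cos s • a + sin s • w) (cos t • a + sin t • w) =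
      cos (s - t) := by
    intro s t
    simp only [inner_add_left, inner_add_right, inner_smul_left, inner_smul_right,
      real_inner_self_eq_norm_sq, hx, hw, haw, real_inner_comm a w, RCLike.conj_to_real]
    rw [cos_sub]
    ring
  have hnorm : ∀ s : ℝ, ‖cos s • a + sin s • w‖ = 1 := by
    intro s
    have h := hinner s s
    rw [sub_self, cos_zero, real_inner_self_eq_norm_sq] at h
    nlinarith [norm_nonneg (cos s • a + sin s • w)]
  have hmem : ∀ s : ℝ, cos s • a + sin s • w ∈ Metric.sphere (0 : EuclideanSpace ℝ (Fin 3)) 1 :=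
    fun s => by rw [mem_sphere_zero_iff_norm]; exact hnorm s
  refine ⟨fun t => e.symm ⟨cos (t * α) • a + sin (t * α) • w, hmem _⟩, ?_, ?_, ?_⟩
  · apply e.injective
    rw [Equiv.apply_symm_apply]
    apply Subtype.ext
    simp [ha]
  · apply e.injective
    rw [Equiv.apply_symm_apply]
    apply Subtype.ext
    show cos (1 * α) • a + sin (1 * α) • w = b
    rw [one_mul]; exact hb.symm
  · intro s hs t ht
    rw [he, he]
    simp only [Equiv.apply_symm_apply]
    have h1 : InnerProductGeometry.angle (cos (s * α) • a + sin (s * α) • w)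
        (cos (t * α) • a + sin (t * α) • w) = α * |s - t| := by
      unfold InnerProductGeometry.angle
      rw [hinner, hnorm, hnorm, mul_one, div_one]
      have hα0 : 0 ≤ α := InnerProductGeometry.angle_nonneg _ _
      have hαπ : α ≤ π := InnerProductGeometry.angle_le_pi _ _
      have e1 : cos (s * α - t * α) = cos (α * |s - t|) := by
        rw [← cos_abs, ← sub_mul, abs_mul, abs_of_nonneg hα0, mul_comm]
      rw [e1]
      apply arccos_cos (by positivity)
      have h2 : |s - t| ≤ 1 := by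
        rw [abs_le]
        constructor <;> linarith [hs.1, hs.2, ht.1, ht.2]
      nlinarith [abs_nonneg (s - t)]
    rw [h1]
    ring

theorem coarseSC_of_isRoundSphere {ρ : ℝ} (hρ : 0 < ρ) {X : Type*} [MetricSpace X]
    (hX : IsRoundSphere ρ X) : CoarseSC X := by
  obtain ⟨e, he⟩ := hX
  have hmem : ∀ u, sph u ∈ Metric.sphere (0 : EuclideanSpace ℝ (Fin 3)) 1 := fun u => by
    simp [norm_sph]
  let p : ℝ × ℝ → X := fun u => e.symm ⟨sph u, hmem u⟩
  have hep : ∀ u, (e (p u) : EuclideanSpace ℝ (Fin 3)) = sph u := by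
    intro u; simp only [p, Equiv.apply_symm_apply]
  have hp : Good p := by
    refine ⟨?_, ?_, ?_, ?_⟩
    · intro u; simp only [p, sph_tau]
    · intro u; simp only [p, sph_tau']
    · intro a b; simp only [p, sph_zero]
    · intro a b; simp only [p, sph_pi]
  have hpd : ∀ u v, dist (p u) (p v) = ρ * InnerProductGeometry.angle (sph u) (sph v) := by
    intro u v
    rw [he, hep, hep]
  have hp1 : ∀ u v, dist (p u) (p v) ≤ ρ * (|u.1 - v.1| + |u.2 - v.2|) := by
    intro u v
    have h5 := dist_triangle (p u) (p (v.1, u.2)) (p v)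
    have h1 : dist (p u) (p (v.1, u.2)) ≤ ρ * |u.1 - v.1| := by
      rw [hpd]
      exact mul_le_mul_of_nonneg_left (angle_sph_fst _ _ _) hρ.le
    have h2 : dist (p (v.1, u.2)) (p v) ≤ ρ * |u.2 - v.2| := by
      rw [hpd]
      exact mul_le_mul_of_nonneg_left (angle_sph_snd _ _ _) hρ.le
    linarith
  have hcoord : ∀ x : X, ∃ u : ℝ × ℝ, p u = x ∧ 0 ≤ u.1 ∧ u.1 ≤ π ∧ -π < u.2 ∧ u.2 ≤ π := by
    intro x
    have hx : ‖(e x : EuclideanSpace ℝ (Fin 3))‖ = 1 := by simpa using (e x).2
    obtain ⟨u, hu, h⟩ := sph_surj hx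
    refine ⟨u, ?_, h⟩
    apply e.injective
    apply Subtype.ext
    rw [hep, hu]
  intro c ε hε hc
  set ε1 := min (ε / (4 * ρ)) 1 with hε1
  have hε1pos : 0 < ε1 := by positivity
  have hε1le : ε1 ≤ 1 := min_le_right _ _
  have hε1ρ : 4 * ρ * ε1 ≤ ε := by
    have := min_le_left (ε / (4 * ρ)) 1
    rw [← hε1, le_div_iff₀ (by positivity)] at this
    linarith
  have hcoc : IsCoc (fun u v => c (p u) (p v)) (2 * ε1) := by
    have hsm : ∀ u v : ℝ × ℝ, dist u v < 2 * ε1 → dist (p u) (p v) < ε := by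
      intro u v huv
      have h3 : |u.1 - v.1| ≤ dist u v := by
        rw [Prod.dist_eq, ← Real.dist_eq]; exact le_max_left _ _
      have h4 : |u.2 - v.2| ≤ dist u v := by
        rw [Prod.dist_eq, ← Real.dist_eq]; exact le_max_right _ _
      have h5 := hp1 u v
      nlinarith
    intro u v w huv hvw huw
    exact hc _ _ _ (hsm _ _ huv) (hsm _ _ hvw) (hsm _ _ huw)
  obtain ⟨f, hf, hfd⟩ := exists_good_potential hp (D := c) (by positivity : 0 < 2 * ε1) hcoc
  have hfd' : ∀ u v, dist u v < ε1 → f v - f u = c (p u) (p v) := fun u v huv =>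
    hfd u v (by linarith)
  choose u hu hu1 hu2 hu3 hu4 using hcoord
  set κ := 1 - cos ε1 with hκ
  have hπ := pi_gt_three
  have hκpos : 0 < κ := by
    have : cos ε1 < cos 0 := cos_lt_cos_of_nonneg_of_le_pi le_rfl (by linarith) hε1pos
    rw [cos_zero] at this
    linarith
  set σ := sin (ε1 / 4) with hσ
  have hσpos : 0 < σ := sin_pos_of_pos_of_lt_pi (by positivity) (by linarith)
  refine ⟨fun x => f (u x), ρ * min (ε1 / 4) (σ * √κ), by positivity, ?_⟩
  intro x y hxy
  show f (u y) - f (u x) = c x y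
  set α := InnerProductGeometry.angle (sph (u x)) (sph (u y)) with hα
  have hxyα : dist x y = ρ * α := by
    conv_lhs => rw [← hu x, ← hu y]
    rw [hpd]
  have hα0 : 0 ≤ α := InnerProductGeometry.angle_nonneg _ _
  have hα1 : α < ε1 / 4 := by
    rw [hxyα] at hxy
    have := lt_of_mul_lt_mul_left hxy hρ.le
    exact lt_of_lt_of_le this (min_le_left _ _)
  have hα2 : α < σ * √κ := by
    rw [hxyα] at hxy
    have := lt_of_mul_lt_mul_left hxy hρ.le
    exact lt_of_lt_of_le this (min_le_right _ _)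
  have hxyε : dist x y < ε := by rw [hxyα]; nlinarith
  -- latitude
  have hN : ∀ x, dist x (p (0, 0)) = ρ * (u x).1 := by
    intro x
    conv_lhs => rw [← hu x]
    rw [hpd]
    congr 1
    unfold InnerProductGeometry.angle
    rw [norm_sph, norm_sph, inner_sph]
    simp only [sin_zero, mul_zero, zero_mul, cos_zero, mul_one, zero_add, div_one]
    exact arccos_cos (hu1 x) (hu2 x)
  have hS : ∀ x, dist x (p (π, 0)) = ρ * (π - (u x).1) := by
    intro x
    conv_lhs => rw [← hu x]
    rw [hpd]
    congr 1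
    unfold InnerProductGeometry.angle
    rw [norm_sph, norm_sph, inner_sph]
    simp only [sin_pi, mul_zero, zero_mul, cos_pi, mul_one, zero_add, div_one]
    rw [mul_neg_one, arccos_neg, arccos_cos (hu1 x) (hu2 x)]
  have hlat : |(u x).1 - (u y).1| ≤ α := by
    have h1 := hN x
    have h2 := hN y
    have t1 := dist_triangle x y (p (0, 0))
    have t2 := dist_triangle y x (p (0, 0))
    rw [dist_comm y x] at t2
    rw [h1, h2, hxyα] at t1 t2
    rw [abs_le]
    constructor
    · have : ρ * ((u y).1 - (u x).1) ≤ ρ * α := by linarith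
      have := le_of_mul_le_mul_left this hρ
      linarith
    · have : ρ * ((u x).1 - (u y).1) ≤ ρ * α := by linarith
      exact le_of_mul_le_mul_left this hρ
  -- longitude modulo 2π
  obtain ⟨v2, hv2f, hv2p, hv2c, hv2d⟩ : ∃ v2 : ℝ, f ((u y).1, v2) = f (u y) ∧
      p ((u y).1, v2) = y ∧ cos ((u x).2 - (u y).2) = cos |(u x).2 - v2| ∧
      |(u x).2 - v2| ≤ π := by
    have a1 := hu3 x; have a2 := hu4 x; have a3 := hu3 y; have a4 := hu4 y
    rcases lt_or_ge π ((u x).2 - (u y).2) with h | h
    · refine ⟨(u y).2 + 2 * π, hf.shift_snd _ _, by rw [hp.shift_snd]; exact hu y, ?_, ?_⟩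
      · rw [cos_abs, ← sub_sub, cos_sub_two_pi]
      · rw [abs_le]; constructor <;> linarith
    · rcases lt_or_ge ((u x).2 - (u y).2) (-π) with h' | h'
      · refine ⟨(u y).2 - 2 * π, ?_, ?_, ?_, ?_⟩
        · have := hf.shift_snd (u y).1 ((u y).2 - 2 * π)
          rw [sub_add_cancel] at this; exact this.symm
        · have := hp.shift_snd (u y).1 ((u y).2 - 2 * π)
          rw [sub_add_cancel] at this; rw [← this]; exact hu y
        · rw [cos_abs, sub_sub_eq_add_sub, add_sub_right_comm, cos_add_two_pi]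
        · rw [abs_le]; constructor <;> linarith
      · exact ⟨(u y).2, rfl, hu y, by rw [cos_abs], abs_le.mpr ⟨h', h⟩⟩
  rw [← hv2f]
  by_cases hclose : |(u x).2 - v2| < ε1
  · have := hfd' (u x) ((u y).1, v2) (by
      rw [Prod.dist_eq]
      apply max_lt
      · rw [Real.dist_eq]; linarith
      · rw [Real.dist_eq]; exact hclose)
    rw [this, hu, hv2p]
  · push Not at hclose
    -- both points are near a pole
    have hineq : sin (u x).1 * sin (u y).1 * κ ≤ α ^ 2 / 2 := by
      have h1 : cos α = sin (u x).1 * sin (u y).1 * cos ((u x).2 - (u y).2) +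
          cos (u x).1 * cos (u y).1 := by
        have := InnerProductGeometry.cos_angle_mul_norm_mul_norm (sph (u x)) (sph (u y))
        rw [norm_sph, norm_sph, inner_sph] at this
        linarith
      have h2 : cos ((u x).2 - (u y).2) ≤ cos ε1 := by
        rw [hv2c]
        exact cos_le_cos_of_nonneg_of_le_pi hε1pos.le hv2d hclose
      have h3 : 0 ≤ sin (u x).1 := sin_nonneg_of_nonneg_of_le_pi (hu1 x) (hu2 x)
      have h4 : 0 ≤ sin (u y).1 := sin_nonneg_of_nonneg_of_le_pi (hu1 y) (hu2 y)
      have h5 : cos ((u x).1 - (u y).1) = cos (u x).1 * cos (u y).1 + sin (u x).1 * sin (u y).1 :=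
        cos_sub _ _
      have h6 : cos ((u x).1 - (u y).1) ≤ 1 := cos_le_one _
      have h7 : 1 - α ^ 2 / 2 ≤ cos α := one_sub_sq_div_two_le_cos
      have h8 : sin (u x).1 * sin (u y).1 * cos ((u x).2 - (u y).2) ≤
          sin (u x).1 * sin (u y).1 * cos ε1 := mul_le_mul_of_nonneg_left h2 (mul_nonneg h3 h4)
      rw [hκ]
      nlinarith
    have hpole : ((u x).1 < ε1 / 2 ∧ (u y).1 < ε1) ∨ (π - (u x).1 < ε1 / 2 ∧ π - (u y).1 < ε1) := by
      rw [abs_le] at hlat
      by_contra hcon
      push Not at hcon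
      obtain ⟨c1, c2⟩ := hcon
      have d1 : ε1 / 2 ≤ (u x).1 := by
        by_contra hlt
        push Not at hlt
        have := c1 hlt
        linarith [hlat.1, hlat.2]
      have d2 : ε1 / 2 ≤ π - (u x).1 := by
        by_contra hlt
        push Not at hlt
        have := c2 hlt
        linarith [hlat.1, hlat.2]
      have sinlow : ∀ z : ℝ, ε1 / 4 ≤ z → z ≤ π - ε1 / 4 → σ ≤ sin z := by
        intro z hz1 hz2
        rcases le_total z (π / 2) with h | h
        · exact sin_le_sin_of_le_of_le_pi_div_two (by linarith) h hz1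
        · rw [← sin_pi_sub]
          exact sin_le_sin_of_le_of_le_pi_div_two (by linarith) (by linarith) (by linarith)
      have s1 := sinlow (u x).1 (by linarith) (by linarith)
      have s2 := sinlow (u y).1 (by linarith [hlat.1, hlat.2]) (by linarith [hlat.1, hlat.2])
      have e1 : σ * σ ≤ sin (u x).1 * sin (u y).1 := mul_le_mul s1 s2 hσpos.le (hσpos.le.trans s1)
      have e2 : σ * σ * κ ≤ α ^ 2 / 2 :=
        (mul_le_mul_of_nonneg_right e1 hκpos.le).trans hineq
      have e3 : α ^ 2 < (σ * √κ) ^ 2 := pow_lt_pow_left₀ hα2 hα0 (by norm_num)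
      rw [mul_pow, Real.sq_sqrt hκpos.le] at e3
      nlinarith [mul_pos (mul_pos hσpos hσpos) hκpos]
    rcases hpole with ⟨q1, q2⟩ | ⟨q1, q2⟩
    · have w1 := hfd' (u x) (0, (u x).2) (by
        rw [Prod.dist_eq]
        apply max_lt
        · rw [Real.dist_eq]; simp only [sub_zero]; rw [abs_of_nonneg (hu1 x)]; linarith
        · simp [hε1pos])
      have w2 := hfd' (0, v2) ((u y).1, v2) (by
        rw [Prod.dist_eq]
        apply max_lt
        · rw [Real.dist_eq]; simp only [zero_sub, abs_neg]; rw [abs_of_nonneg (hu1 y)]; exact q2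
        · simp [hε1pos])
      have w3 := hf.l0 (u x).2 v2
      have w4 : p (0, (u x).2) = p (0, 0) := hp.l0 _ _
      have w5 : p (0, v2) = p (0, 0) := hp.l0 _ _
      rw [hu, w4] at w1
      rw [hv2p, w5] at w2
      have w6 := hc x (p (0, 0)) y (by rw [hN]; nlinarith) (by rw [dist_comm, hN]; nlinarith) hxyε
      linarith
    · have w1 := hfd' (u x) (π, (u x).2) (by
        rw [Prod.dist_eq]
        apply max_lt
        · rw [Real.dist_eq]; show |(u x).1 - π| < ε1
          rw [abs_sub_comm, abs_of_nonneg (by linarith [hu2 x])]; linarith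
        · simp [hε1pos])
      have w2 := hfd' (π, v2) ((u y).1, v2) (by
        rw [Prod.dist_eq]
        apply max_lt
        · rw [Real.dist_eq]; show |π - (u y).1| < ε1
          rw [abs_of_nonneg (by linarith [hu2 y])]; exact q2
        · simp [hε1pos])
      have w3 := hf.lpi (u x).2 v2
      have w4 : p (π, (u x).2) = p (π, 0) := hp.lpi _ _
      have w5 : p (π, v2) = p (π, 0) := hp.lpi _ _
      rw [hu, w4] at w1
      rw [hv2p, w5] at w2
      have w6 := hc x (p (π, 0)) y (by rw [hS]; nlinarith) (by rw [dist_comm, hS]; nlinarith) hxyε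
      linarith

end MPf10cd3
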