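import Pool.Agent.Lib.MP_f10cd3_gt.Lift

/-! Plane lattices: a shortest vector and the height functional. -/

namespace MPf10cd3

open Real

/-- The lattice spanned by `a` and `b`. -/
def lat (a b : E2) : AddSubgroup E2 := AddSubgroup.closure {a, b}

theorem mem_lat {a b x : E2} : x ∈ lat a b ↔ ∃ m n : ℤ, m • a + n • b = x := by
  unfold lat
  rw [AddSubgroup.mem_closure_pair]

theorem left_mem_lat (a b : E2) : a ∈ lat a b := mem_lat.mpr ⟨1, 0, by simp⟩
theorem right_mem_lat (a b : E2) : b ∈ lat a b := mem_lat.mpr ⟨0, 1, by simp⟩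

/-- Existence of a shortest nonzero vector. -/
theorem exists_shortest {a b : E2} (hab : LinearIndependent ℝ ![a, b]) :
    ∃ c ∈ lat a b, c ≠ 0 ∧ ∀ x ∈ lat a b, x ≠ 0 → ‖c‖ ≤ ‖x‖ := by
  have hcard : Fintype.card (Fin 2) = Module.finrank ℝ E2 := by simp
  let B := basisOfLinearIndependentOfCardEqFinrank hab hcard
  have hB : ⇑B = ![a, b] := coe_basisOfLinearIndependentOfCardEqFinrank _ _
  have hspan : ∀ x ∈ lat a b, x ∈ (Submodule.span ℤ (Set.range B) : Set E2) := by
    intro x hx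
    obtain ⟨m, n, rfl⟩ := mem_lat.mp hx
    apply Submodule.add_mem
    · apply Submodule.smul_mem
      apply Submodule.subset_span
      exact ⟨0, by rw [hB]; rfl⟩
    · apply Submodule.smul_mem
      apply Submodule.subset_span
      exact ⟨1, by rw [hB]; rfl⟩
  have ha : a ≠ 0 := by
    have := hab.ne_zero 0
    simpa using this
  have hfin : (Metric.closedBall (0 : E2) ‖a‖ ∩ (Submodule.span ℤ (Set.range B) : Set E2)).Finite :=
    ZSpan.setFinite_inter B Metric.isBounded_closedBall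
  let S : Set E2 := {x | x ∈ lat a b ∧ x ≠ 0 ∧ ‖x‖ ≤ ‖a‖}
  have hS : S.Finite := hfin.subset (fun x hx => ⟨by simpa using hx.2.2, hspan x hx.1⟩)
  have hSne : S.Nonempty := ⟨a, left_mem_lat a b, ha, le_rfl⟩
  obtain ⟨c, hc, hcmin⟩ := Set.exists_min_image S (fun x => ‖x‖) hS hSne
  refine ⟨c, hc.1, hc.2.1, fun x hx hx0 => ?_⟩
  by_cases hxa : ‖x‖ ≤ ‖a‖
  · exact hcmin x ⟨hx, hx0, hxa⟩
  · push Not at hxa
    exact hc.2.2.trans hxa.le

/-- The component of `w` orthogonal to `c`. -/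
noncomputable def hgt (c : E2) : E2 →+ ℝ where
  toFun w := (c 0 * w 1 - c 1 * w 0) / ‖c‖
  map_zero' := by simp
  map_add' x y := by simp; ring

theorem hgt_apply (c w : E2) : hgt c w = (c 0 * w 1 - c 1 * w 0) / ‖c‖ := rfl

theorem norm_sq_E2 (w : E2) : ‖w‖ ^ 2 = w 0 ^ 2 + w 1 ^ 2 := by
  rw [EuclideanSpace.norm_sq_eq, Fin.sum_univ_two]
  simp

theorem inner_E2 (v w : E2) : inner ℝ v w = v 0 * w 0 + v 1 * w 1 := by
  simp only [PiLp.inner_apply, Fin.sum_univ_two]
  simp
  ring

theorem pyth {c : E2} (hc : c ≠ 0) (w : E2) : ‖w‖ ^ 2 = (inner ℝ c w / ‖c‖) ^ 2 + (hgt c w) ^ 2 := by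
  have h1 : 0 < ‖c‖ := norm_pos_iff.mpr hc
  rw [hgt_apply, div_pow, div_pow, ← add_div, eq_div_iff (by positivity), norm_sq_E2,
    norm_sq_E2, inner_E2]
  ring

theorem hgt_le {c : E2} (hc : c ≠ 0) (w : E2) : |hgt c w| ≤ ‖w‖ := by
  apply abs_le_of_sq_le_sq _ (norm_nonneg _)
  have := pyth hc w
  nlinarith [sq_nonneg (inner ℝ c w / ‖c‖)]

theorem hgt_self (c : E2) : hgt c c = 0 := by rw [hgt_apply]; ring

theorem hgt_zsmul (c : E2) (k : ℤ) : hgt c (k • c) = 0 := by
  rw [map_zsmul, hgt_self, smul_zero]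

/-- Reduction modulo the shortest vector. -/
theorem reduce {c : E2} (hc : c ≠ 0) (w : E2) :
    ∃ k : ℤ, ‖w - k • c‖ ^ 2 ≤ (hgt c w) ^ 2 + (‖c‖ / 2) ^ 2 := by
  have h1 : 0 < ‖c‖ := norm_pos_iff.mpr hc
  refine ⟨round (inner ℝ c w / ‖c‖ ^ 2), ?_⟩
  set k := round (inner ℝ c w / ‖c‖ ^ 2) with hk
  rw [pyth hc (w - k • c), map_sub, hgt_zsmul, sub_zero]
  have h2 : inner ℝ c (w - k • c) = inner ℝ c w - k * ‖c‖ ^ 2 := by
    rw [inner_sub_right, ← Int.cast_smul_eq_zsmul ℝ k c, inner_smul_right,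
      real_inner_self_eq_norm_sq]
  have h3 : |inner ℝ c w / ‖c‖ ^ 2 - k| ≤ 1 / 2 := abs_sub_round _
  have h4 : inner ℝ c (w - k • c) / ‖c‖ = (inner ℝ c w / ‖c‖ ^ 2 - k) * ‖c‖ := by
    rw [h2]; field_simp
  rw [h4, add_comm]
  have h5 : (inner ℝ c w / ‖c‖ ^ 2 - k) ^ 2 ≤ (1 / 2) ^ 2 := by
    rw [← sq_abs]
    exact pow_le_pow_left₀ (abs_nonneg _) h3 2
  nlinarith [mul_le_mul_of_nonneg_right h5 (sq_nonneg ‖c‖)]

/-- Heights of the lattice vectors are the integer multiples of some `h > 0`. -/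
theorem exists_height {a b c : E2} (hab : LinearIndependent ℝ ![a, b]) (hc : c ∈ lat a b)
    (hc0 : c ≠ 0) (hmin : ∀ x ∈ lat a b, x ≠ 0 → ‖c‖ ≤ ‖x‖) :
    ∃ h : ℝ, 0 < h ∧ (lat a b).map (hgt c) = AddSubgroup.zmultiples h := by
  have hcpos : 0 < ‖c‖ := norm_pos_iff.mpr hc0
  have gap : ∀ y ∈ (lat a b).map (hgt c), |y| < ‖c‖ / 2 → y = 0 := by
    rintro y hy hlt
    obtain ⟨x, hx, rfl⟩ := AddSubgroup.mem_map.mp hy
    obtain ⟨k, hk⟩ := reduce hc0 x
    have hmem : x - k • c ∈ lat a b := (lat a b).sub_mem hx ((lat a b).zsmul_mem hc k)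
    have hz : x - k • c = 0 := by
      by_contra hne
      have h1 := hmin _ hmem hne
      have h2 : (hgt c x) ^ 2 < (‖c‖ / 2) ^ 2 := by
        rw [← sq_abs]
        exact pow_lt_pow_left₀ hlt (abs_nonneg _) (by norm_num)
      nlinarith
    have : hgt c x = hgt c (x - k • c) + hgt c (k • c) := by rw [← map_add]; congr 1; abel
    rw [this, hz, map_zero, hgt_zsmul, add_zero]
  rcases AddSubgroup.dense_or_cyclic ((lat a b).map (hgt c)) with hdense | ⟨g, hg⟩
  · exfalso
    obtain ⟨y, hy, hy1, hy2⟩ : ∃ y ∈ (((lat a b).map (hgt c) : AddSubgroup ℝ) : Set ℝ),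
        0 < y ∧ y < ‖c‖ / 2 := by
      obtain ⟨y, hy, hy'⟩ := hdense.exists_mem_open (isOpen_Ioo (a := (0 : ℝ)) (b := ‖c‖ / 2))
        ⟨‖c‖ / 4, by constructor <;> linarith⟩
      exact ⟨y, hy, hy'.1, hy'.2⟩
    have := gap y hy (by rw [abs_of_pos hy1]; exact hy2)
    linarith
  · have hg0 : g ≠ 0 := by
      rintro rfl
      have hz : ∀ x ∈ lat a b, hgt c x = 0 := by
        intro x hx
        have : hgt c x ∈ (lat a b).map (hgt c) := AddSubgroup.mem_map.mpr ⟨x, hx, rfl⟩
        rw [hg, AddSubgroup.closure_singleton_zero] at this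
        simpa using this
      have e1 := hz a (left_mem_lat a b)
      have e2 := hz b (right_mem_lat a b)
      rw [hgt_apply, div_eq_zero_iff] at e1 e2
      have e1' : c 0 * a 1 - c 1 * a 0 = 0 := e1.resolve_right hcpos.ne'
      have e2' : c 0 * b 1 - c 1 * b 0 = 0 := e2.resolve_right hcpos.ne'
      -- a and b are parallel
      have hdet : a 0 * b 1 - a 1 * b 0 = 0 := by
        have hc' : c 0 ≠ 0 ∨ c 1 ≠ 0 := by
          by_contra hcon
          push Not at hcon
          apply hc0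
          ext i
          fin_cases i
          · simpa using hcon.1
          · simpa using hcon.2
        rcases hc' with h0 | h1
        · have : c 0 * (a 0 * b 1 - a 1 * b 0) = 0 := by
            linear_combination a 0 * e2' - b 0 * e1'
          exact (mul_eq_zero.mp this).resolve_left h0
        · have : c 1 * (a 0 * b 1 - a 1 * b 0) = 0 := by
            linear_combination a 1 * e2' - b 1 * e1'
          exact (mul_eq_zero.mp this).resolve_left h1
      have hli := (LinearIndependent.pair_iff.mp hab)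
      have ha : a ≠ 0 := by
        have := hab.ne_zero 0
        simpa using this
      have h5 := hli (b 1) (-(a 1)) (by
        ext i
        fin_cases i
        · simp; linarith
        · simp; ring)
      have h6 := hli (b 0) (-(a 0)) (by
        ext i
        fin_cases i
        · simp; ring
        · simp; linarith)
      apply ha
      ext i
      fin_cases i
      · have := h6.2; simpa using this
      · have := h5.2; simpa using this
    refine ⟨|g|, abs_pos.mpr hg0, ?_⟩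
    rw [hg, ← AddSubgroup.zmultiples_eq_closure]
    rcases abs_choice g with h | h
    · rw [h]
    · rw [h, AddSubgroup.zmultiples_neg]

end MPf10cd3
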